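import Pool.Agent.Helper52.SG.Defs2

/-!
# Project SG, part 2: Thompson's theorem on fixed point free automorphisms of prime order

Everything is about finite groups.  `r` is a prime; an `r'`-element is an element whose order is prime
to `r`.  `PN r K`: the `r'`-elements of `K` are closed under multiplication (`K` is `r`-nilpotent).
`JJ r P`: Thompson subgroup (generated by the elementary abelian subgroups of `P` of maximal order),
`ZS P`: center of `P`.  A Sylow `r`-subgroup is a subgroup `P` with `IsPGroup r P` and `¬ r ∣ P.index`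
(`IsPGroup.toSylow` of Mathlib makes it a `Sylow r G`).  `MC r G P`: `G` is a counterexample of least
order to Thompson's normal complement theorem (`S_THO`).  `x^g = g⁻¹ x g`, `cj K g = g⁻¹ K g`.
Definitions: `Pool/Agent/Helper52/SG/Defs2.lean`, `Defs.lean`.
-/

set_option autoImplicit false

namespace Pool.Agent.Helper52.SG

open Subgroup Pool.H83Shunkov Pool.Agent.Helper29.SH

/-! ## `r`-nilpotent groups -/

/-- **PNO** (0.8 h). The `r'`-elements form a subgroup `O`, and `K/O` is an `r`-group.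
Proof. `O = {x ∈ K | ¬ r ∣ orderOf x}` is closed under products (`PN`) and inverses. If `r ∣ |O|`, Cauchy
gives an element of order `r` in `O`, a contradiction. For `k ∈ K` write `orderOf k = r^n m`, `r ∤ m`:
`k^(r^n)` has order `m`. -/
def S_PNO : Prop := ∀ (G : Type) [Group G] [Finite G] (r : ℕ), r.Prime → ∀ K : Subgroup G, PN r K →
  ∃ O : Subgroup G, (∀ x, x ∈ O ↔ x ∈ K ∧ ¬ r ∣ orderOf x) ∧ ¬ r ∣ Nat.card O ∧
    ∀ k ∈ K, ∃ n : ℕ, k ^ r ^ n ∈ O

/-- **PNQ** (0.6 h). Images of `r`-nilpotent groups are `r`-nilpotent.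
Proof. An `r'`-element `y` of `K.map f` is the image of an `r'`-element of `K`: `y = f x`,
`orderOf x = r^n m` with `r ∤ m`; take `j` with `j ≡ 0 mod r^n`, `j ≡ 1 mod m`; `x^j` has order dividing
`m`, and `f (x^j) = y^j = y` as `orderOf y` divides `r^n m` and is prime to `r`, so divides `m`. The order
of `f z` divides the order of `z`. -/
def S_PNQ : Prop := ∀ (G G' : Type) [Group G] [Finite G] [Group G'] (r : ℕ) (f : G →* G'), r.Prime →
  ∀ K : Subgroup G, PN r K → PN r (K.map f)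

/-- **PNE** (0.4 h). Proof. Let `x`, `y` be `r'`-elements. Their images in `G ⧸ E` are `r'`-elements, so
is the image of `x y`: there is `d` with `r ∤ d`, `(x y)^d ∈ E`, so `(x y)^(d |E|) = 1`. -/
def S_PNE : Prop := ∀ (G : Type) [Group G] [Finite G] (r : ℕ) (E : Subgroup G) [E.Normal], r.Prime →
  ¬ r ∣ Nat.card E → PN r (⊤ : Subgroup (G ⧸ E)) → PN r (⊤ : Subgroup G)

/-- **NRQ** (1.2 h). Normalizers and centralizers of `r`-subgroups modulo a normal subgroup `E` of order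
prime to `r`.
Proof. Let `π(g)` normalise `π(U)`. Then `cj (U ⊔ E) g = U ⊔ E`, and `U`, `cj U g` are Sylow `r`-subgroups
of `U ⊔ E` (`|U ⊔ E| = |U| |E|`), so `cj U g = cj U (u e) = cj U e` with `u ∈ U`, `e ∈ E`
(`U ⊔ E = U E`): `n = g e⁻¹` normalises `U` and `π(n) = π(g)`. If `π(g)` centralises `π(U)` then for
`u ∈ U`: `[n, u] ∈ E` (same image) and `[n, u] ∈ U` (`n` normalises `U`), `U ∩ E = 1`, so `n` centralises
`U`. -/
def S_NRQ : Prop := ∀ (G : Type) [Group G] [Finite G] (r : ℕ) (E U : Subgroup G) [E.Normal],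
  r.Prime → ¬ r ∣ Nat.card E → IsPGroup r U →
  normalizer ((U.map (QuotientGroup.mk' E) : Subgroup (G ⧸ E)) : Set (G ⧸ E)) ≤
    (normalizer (U : Set G)).map (QuotientGroup.mk' E) ∧
  centralizer ((U.map (QuotientGroup.mk' E) : Subgroup (G ⧸ E)) : Set (G ⧸ E)) ≤
    (centralizer (U : Set G)).map (QuotientGroup.mk' E)

/-- **FR1** (1.5 h; PNO). Suppose that `normalizer U` is `r`-nilpotent for all `r`-subgroups `U ≠ 1`. Sylow
`r`-subgroups `S`, `P` are conjugate under the centralizer of `P ⊓ S`.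
Proof. Downward induction on `|D|`, `D = P ⊓ S` (all pairs). If `D = P` then `P = S`, `c = 1`. If `D = ⊥` this
is Sylow's theorem. Otherwise `N = normalizer D` is `r`-nilpotent; `N_P(D) > D`, `N_S(D) > D` (normalizer
condition in the `r`-groups `P`, `S`). Let `P₁`, `S₁` be Sylow `r`-subgroups of `N` containing `N_P(D)`,
`N_S(D)`, and `P₂ ≥ P₁`, `S₂ ≥ S₁` Sylow `r`-subgroups of `G`. `P ⊓ P₂ ≥ N_P(D)` is larger than `D`: there
is `c₁` centralising `P ⊓ P₂ ≥ D` with `cj P₂ c₁ = P`; likewise `c₂` centralising `S ⊓ S₂ ≥ D` with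
`cj S c₂ = S₂`. By Sylow in `N` there is `n ∈ N` with `cj S₁ n = P₁`; `N = P₁ O`-wise: `n = o u` with `o ∈ O`
(the normal subgroup of the `r'`-elements of `N`, PNO) and `u ∈ P₁` (`|N| = |O| |P₁|`, so `N = O P₁`);
so we may take `n = o ∈ O` (`cj S₁ o = cj P₁ u⁻¹ = P₁`). `[o, d] ∈ O ∩ D = 1` for `d ∈ D` (both are normal in
`N`), so `o` centralises `D`. `cj S₂ o ⊓ P₂ ≥ P₁ ≥ N_P(D)` is larger than `D`: there is `c₃` centralising it (so
`D ≤ P₁`) with `cj (cj S₂ o) c₃ = P₂`. So `c = c₂ o c₃ c₁` centralises `D` and `cj S c = P`. -/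
def S_FR1 : Prop := ∀ (G : Type) [Group G] [Finite G] (r : ℕ), r.Prime →
  (∀ U : Subgroup G, IsPGroup r U → U ≠ ⊥ → PN r (normalizer (U : Set G))) →
  ∀ P S : Subgroup G, IsPGroup r P → ¬ r ∣ P.index → IsPGroup r S → ¬ r ∣ S.index →
  ∃ c ∈ centralizer ((P ⊓ S : Subgroup G) : Set G), cj S c = P

/-- **FRO** (1.5 h; PNO, FR1). Frobenius' normal complement theorem.
Proof. Induction on `|G|` (over all groups). If `r ∤ |G|` it is clear. Let `P ≠ 1` be a Sylow `r`-subgroup.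
(1) If `x ∈ P` and `x^g ∈ P` then `x^g = x^u` with `u ∈ P`: `x ∈ P ⊓ cj P g⁻¹`; by FR1 there is `c` which
centralises it with `cj (cj P g⁻¹) c = P`, so `n = g⁻¹ c` normalises `P`; `n = o u⁻¹`
with `o` an `r'`-element of `normalizer P` (PNO, `normalizer P = O P`), `[o, P] ≤ O ∩ P = 1`;
`x = c⁻¹ x c` and `x^g = g⁻¹ x g`: `x^g = (g⁻¹ c) x (g⁻¹ c)⁻¹ = n x n⁻¹ = o u⁻¹ x u o⁻¹ = u⁻¹ x u`, because
`u⁻¹ x u ∈ P` commutes with `o`. (2) So the focal subgroup of `P` (`Subgroup.focalSubgroup`, generated by the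
`⁅x, u⁆ ∈ P`, `x ∈ P`) is the commutator subgroup of `P`, which is `≠ P` (`P` is nilpotent, `≠ 1`).
(3) `K` = kernel of `transferFocal` (Mathlib `Mathlib/GroupTheory/Focal.lean`: `K ⊓ P` = focal
subgroup `≠ P`), so `K ≠ ⊤` is normal and `G/K` embeds in an abelian `r`-group. `K` satisfies the hypothesis
(`PN.mono`, `PN.comap`), so `PN r K` by induction. Every `r'`-element of `G` lies in `K` (its image in the
`r`-group `G/K` is trivial), so `PN r ⊤`. -/
def S_FRO : Prop := ∀ (G : Type) [Group G] [Finite G] (r : ℕ), r.Prime →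
  (∀ U : Subgroup G, IsPGroup r U → U ≠ ⊥ → PN r (normalizer (U : Set G))) →
  PN r (⊤ : Subgroup G)

/-! ## Coprime action -/

/-- **CD** (0.6 h). `[V, Q] ∩ C_V(Q) = 1` for coprime action on an abelian group.
Proof. `N v = ∏_{q ∈ Q} q v` is a homomorphism `V → V`, `N (q w) = N w`, so `N` is trivial on the closure. If
`v` is fixed by `Q`, `N v = v^|Q|`. So `v^|Q| = 1` and `v^|V| = 1`, `v = 1`. -/
def S_CD : Prop := ∀ (V : Type) [CommGroup V] [Finite V] (Q : Subgroup (MulAut V)),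
  (Nat.card V).Coprime (Nat.card Q) →
  ∀ v ∈ closure {x : V | ∃ w : V, ∃ q ∈ Q, x = w⁻¹ * q w}, (∀ q ∈ Q, q v = v) → v = 1

/-- **CD2** (0.7 h). The same for subgroups of a group. Proof as for CD (`N v = ∏_{q ∈ Q} q⁻¹ v q`, a
product in the abelian group `V`), or apply CD to the group `V` and the image of `Q`. -/
def S_CD2 : Prop := ∀ (M : Type) [Group M] (V Q : Subgroup M), (V : Set M).Finite →
  (Q : Set M).Finite → (∀ x ∈ V, ∀ y ∈ V, x * y = y * x) → (∀ q ∈ Q, ∀ v ∈ V, q⁻¹ * v * q ∈ V) →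
  (Nat.card V).Coprime (Nat.card Q) →
  ∀ v ∈ closure {x : M | ∃ w ∈ V, ∃ q ∈ Q, x = w⁻¹ * (q⁻¹ * w * q)}, (∀ q ∈ Q, v * q = q * v) → v = 1

/-- **TRI** (1.2 h). An elementary abelian group of order `r²` does not act freely.
Proof. For `d` with `d^r = 1` which normalises `W` and commutes with no element `≠ 1` of `W`:
`∏_{j<r} w^(d^j) = 1` for all `w ∈ W` (it is fixed by `d`). Take `w ∈ W`. For `k < r`:
`1 = ∏_{j<r} w^((b c^k)^j) = w ∏_{0<j<r} (w^(b^j))^(c^(k j))`. Multiply over `k < r`: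
`1 = w^r ∏_{0<j<r} ∏_{k<r} (w^(b^j))^(c^(k j))`, and for `0 < j < r` the map `k ↦ k j mod r` is a bijection of
`{0, .., r-1}` (`c^r = 1`), so the inner product is `∏_{k<r} (w^(b^j))^(c^k) = 1`. So `w^r = 1`, and `w = 1` as
`r ∤ |W|`. (`W` is abelian; make it a `CommGroup` or use `Finset.noncommProd`.) -/
def S_TRI : Prop := ∀ (M : Type) [Group M] (W : Subgroup M) (b c : M) (r : ℕ), r.Prime →
  (W : Set M).Finite → (∀ x ∈ W, ∀ y ∈ W, x * y = y * x) → ¬ r ∣ Nat.card W →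
  (∀ w ∈ W, b⁻¹ * w * b ∈ W) → (∀ w ∈ W, c⁻¹ * w * c ∈ W) → b * c = c * b → b ^ r = 1 →
  c ^ r = 1 → (∀ w ∈ W, w * c = c * w → w = 1) →
  (∀ k : ℕ, ∀ w ∈ W, w * (b * c ^ k) = (b * c ^ k) * w → w = 1) → ∀ w ∈ W, w = 1

/-- **AXB** (0.8 h; CD). Thompson's `A × B` lemma for abelian `V`.
Proof. Let `Y = closure {w⁻¹ * q w}`. It is invariant under `A`: `a (w⁻¹ q w) = (a w)⁻¹ (q (a w))`. If `Y ≠ ⊥`
then the `r`-group `A` has a fixed point `y ≠ 1` in the nontrivial `r`-group `Y`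
(`IsPGroup.exists_fixed_point_of_prime_dvd_card_of_fixed_point`); it is fixed by `Q` by hypothesis, so
`y = 1` by CD. So `Y = ⊥`, `q w = w`. -/
def S_AXB : Prop := ∀ (V : Type) [CommGroup V] [Finite V] (r : ℕ), r.Prime → IsPGroup r V →
  ∀ A Q : Subgroup (MulAut V), IsPGroup r A → ¬ r ∣ Nat.card Q → (∀ a ∈ A, ∀ q ∈ Q, a * q = q * a) →
  (∀ v : V, (∀ a ∈ A, a v = v) → ∀ q ∈ Q, q v = v) → ∀ q ∈ Q, q = 1

/-- **ENDL** (2 h). The end of the proof: counting in a group of order `r²`.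
Proof. For `g ∈ Q` let `C_g = {y ∈ Y | (g⁻¹ x g) y = y} = g⁻¹ C_1`, `c = |C_1| = |C_g|`. (1) For `g ≠ h` in
`Q`: `C_g ∩ C_h = 1`. Let `y` be in both, `D` the set of the automorphisms fixing `y` (a subgroup); it
contains `x^g`, `x^h`. `Q' = D ⊓ Q` satisfies `x⁻¹ Q' x ≤ Q'`: for `q ∈ Q'`, `(x^g)⁻¹ q x^g ∈ D`, and
it equals `g⁻¹ (x⁻¹ (g q g⁻¹) x) g = x⁻¹ q x` because `Q` is abelian and normalised by `x`. It contains
`(x^g)⁻¹ x^h = g⁻¹ (x⁻¹ (g h⁻¹) x) h ∈ Q`, which is `≠ 1`: otherwise `x⁻¹ (g h⁻¹) x = g h⁻¹` and `g = h`. So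
`Q' = Q`, `y` is fixed by `Q`, `y = 1`. (2) `C_g × C_h → Y` is injective, so `c² ≤ |Y| ≤ r c` (`Q ≠ ⊥`), and
`c ≤ r`. The order of `x` is a power of `r`, so `c ≡ |Y| mod r`, `|Y|` is a power of `r` and `≠ 1`: `r ∣ c`,
`c = r`, `|Y| = r²`. (3) The sets `C_g ∖ 1`, `g ∈ Q`, are disjoint: `|Q| (r - 1) ≤ r² - 1`, `|Q| ≤ r + 1`. `⟨x⟩`
acts on `Q` by conjugation with only one fixed point, so `|Q| ≡ 1 mod r`; `|Q| > 1`, so `|Q| = r + 1` and
the `C_g ∖ 1` cover `Y ∖ 1`. (4) `r` is odd, so `|Q|` is even: there is `t ∈ Q` of order 2 (Cauchy). Let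
`y ∈ Y`, `z = y * t y ∈ Y`, `t z = z`. If `z ≠ 1`, `z ∈ C_g` for some `g` and `z = t⁻¹ z ∈ t⁻¹ C_g = C_{g t}`,
contradicting (1). So `t y = y⁻¹` for all `y ∈ Y`, hence `t⁻¹ C_1 = C_1`, but it is `C_t`, so `C_1 = 1` by
(1): a contradiction to `c = r`. -/
def S_ENDL : Prop := ∀ (V : Type) [CommGroup V] [Finite V] (r : ℕ), r.Prime → r ≠ 2 →
  IsPGroup r V → ∀ (Q : Subgroup (MulAut V)) (x : MulAut V) (Y : Subgroup V), Q ≠ ⊥ →
  (∀ q ∈ Q, ∀ q' ∈ Q, q * q' = q' * q) → ¬ r ∣ Nat.card Q → (∃ n : ℕ, x ^ r ^ n = 1) →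
  (∀ q ∈ Q, x⁻¹ * q * x ∈ Q) → (∀ q ∈ Q, x * q = q * x → q = 1) →
  (∀ Q' : Subgroup (MulAut V), Q' ≤ Q → (∀ q ∈ Q', x⁻¹ * q * x ∈ Q') → Q' = ⊥ ∨ Q' = Q) →
  Y ≠ ⊥ → (∀ q ∈ Q, ∀ y ∈ Y, q y ∈ Y) → (∀ y ∈ Y, x y ∈ Y) →
  (∀ y ∈ Y, (∀ q ∈ Q, q y = y) → y = 1) →
  Nat.card Y ≤ r * Nat.card {y : V // y ∈ Y ∧ x y = y} → False

/-- **LEME** (2.5 h; CD, CD2, TRI, AXB, ENDL).
Proof. Suppose that `A` does not centralise `Q`. Let `A₁ ≤ A` be maximal (among the subgroups of `A`) such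
that `A` does not centralise `W := Q ⊓ centralizer A₁` (`⊥` is one). `A` is commutative, so `a⁻¹ W a ≤ W` for
`a ∈ A`. `W' = closure {w⁻¹ * (a⁻¹ * w * a) | w ∈ W, a ∈ A} ≤ W` is `≠ ⊥` and normalised by `A`, and by CD2
(`|W|` prime to `|A|`, a power of `r`) an element of `W'` which commutes with `A` is `1`.
(†) If `x ∈ A`, `x ∉ A₁` and `w ∈ W'` commutes with `x` then `w = 1`: by the maximality of `A₁`, `A`
centralises `Q ⊓ centralizer (A₁ ⊔ ⟨x⟩)`, which contains `w`. (‡) `|A| = r |A₁|`: `A₁ ≠ A`; take `c ∈ A`,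
`c ∉ A₁`. If `A ≠ A₁ ⊔ ⟨c⟩` take `b ∈ A` outside; then `b c^k ∉ A₁` for all `k`, and TRI for `W'`, `b`, `c`
gives `W' = ⊥`. So `A = A₁ ⊔ ⟨c⟩`, `c^r = 1`, the index is `r`. Put `x = c`. Let `Q₁` be minimal among the
subgroups `≠ ⊥` of `W'` with `x⁻¹ Q₁ x ≤ Q₁` (equality, finite); `Q₁` commutes with `A₁`. Let
`V₁ = {v | ∀ a ∈ A₁, a v = v}`, invariant under `x` and `Q₁`. `Q₁` does not fix all of `V₁`, otherwise AXB for
`A₁`, `Q₁` gives `Q₁ = ⊥`. Let `Y = closure {v⁻¹ * q v | v ∈ V₁, q ∈ Q₁} ≤ V₁`, `≠ ⊥`, invariant under `Q₁`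
(`q' (v⁻¹ q v) = (v⁻¹ q' v)⁻¹ (v⁻¹ (q' q) v)`) and `x` (`x (v⁻¹ q v) = (x v)⁻¹ ((x q x⁻¹) (x v))`). An element
of `Y` fixed by `Q₁` is `1` (CD). `|Y| ≤ r |{y ∈ Y | x y = y}|`: by the hypothesis for `B = A₁`,
`|V₁| ≤ r |C_V(A)|` and `C_V(A) = {v ∈ V₁ | x v = v}` (`A = A₁ ⊔ ⟨x⟩`); the cosets of `{y ∈ Y | x y = y}` in
`Y` embed in those of `{v ∈ V₁ | x v = v}` in `V₁`. ENDL (for `Q₁`, `x`, `Y`) gives the contradiction. -/
def S_LEME : Prop := ∀ (V : Type) [CommGroup V] [Finite V] (r : ℕ), r.Prime → r ≠ 2 →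
  (∀ v : V, v ^ r = 1) → ∀ A Q : Subgroup (MulAut V), (∀ a ∈ A, ∀ a' ∈ A, a * a' = a' * a) →
  (∀ a ∈ A, a ^ r = 1) → (∀ q ∈ Q, ∀ q' ∈ Q, q * q' = q' * q) → ¬ r ∣ Nat.card Q →
  (∀ a ∈ A, ∀ q ∈ Q, a⁻¹ * q * a ∈ Q) →
  (∀ B : Subgroup (MulAut V), B ≤ A → Nat.card A = r * Nat.card B →
    Nat.card {v : V // ∀ b ∈ B, b v = v} ≤ r * Nat.card {v : V // ∀ a ∈ A, a v = v}) →
  ∀ a ∈ A, ∀ q ∈ Q, a * q = q * a

/-! ## The Thompson subgroup -/

/-- **JP** (1.5 h). Proof. There is some `A` with `IsMx r P A` (finitely many subgroups, `⊥` is `EA`). (1) if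
`P ≠ ⊥`, Cauchy gives an element of order `r` in `P`, so a maximal `A` is `≠ ⊥`. (2) clear. (3) `A` with
`IsMx r P A` lies in `JJ r P ≤ T`, so the maximal order is the same for `T` and for `P`, and
`IsMx r T A ↔ IsMx r P A`. (4) `B ↦ B.map f` is an order isomorphism of the subgroups of `P` onto those of
`P.map f`, preserving `EA` and the order; `map_sSup`. (5) is (4) for `f = MulAut.conj g⁻¹`. -/
def S_JP : Prop := ∀ (G : Type) [Group G] [Finite G] (r : ℕ), r.Prime → ∀ P : Subgroup G,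
  (∃ A, IsMx r P A) ∧
  (IsPGroup r P → P ≠ ⊥ → JJ r P ≠ ⊥) ∧
  JJ r P ≤ P ∧
  (∀ T : Subgroup G, T ≤ P → JJ r P ≤ T → JJ r T = JJ r P) ∧
  (∀ (G' : Type) [Group G'] [Finite G'] (f : G →* G'), (∀ x ∈ P, f x = 1 → x = 1) →
    JJ r (P.map f) = (JJ r P).map f) ∧
  ∀ g : G, JJ r (cj P g) = cj (JJ r P) g

/-- **ZP** (0.7 h). Proof. (1) the center of a finite `r`-group `≠ 1` is `≠ 1`
(`IsPGroup.center_nontrivial`). (2) direct. (3) direct. -/
def S_ZP : Prop := ∀ (G : Type) [Group G] [Finite G] (r : ℕ), r.Prime → ∀ P : Subgroup G,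
  (IsPGroup r P → P ≠ ⊥ → ZS P ≠ ⊥) ∧
  (∀ (G' : Type) [Group G'] (f : G →* G'), (∀ x ∈ P, f x = 1 → x = 1) →
    ZS (P.map f) = (ZS P).map f) ∧
  ∀ g : G, ZS (cj P g) = cj (ZS P) g

/-! ## Thompson's normal complement theorem -/

/-- **MSUB** (1 h; JP, ZP). Proper subgroups containing `P` are `r`-nilpotent.
Proof. Apply `ind` to the group `L` and `P' = P.subgroupOf L` (`P'.map L.subtype = P`). By JP (4)
`(JJ r P').map L.subtype = JJ r P`, so the normalizer of `JJ r P'` in `L` is mapped into the normalizer of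
`JJ r P`; similarly for `ZS`; use `PN.comap`. The index of `P'` in `L` divides that of `P`. `PN.sub`. -/
def S_MSUB : Prop := ∀ (G : Type) [Group G] (r : ℕ) (P : Subgroup G), MC r G P →
  ∀ L : Subgroup G, P ≤ L → L ≠ ⊤ → PN r L

/-- **MNOR** (2 h; FRO, JP, ZP, MSUB). There is a normal `r`-subgroup `≠ 1`.
Proof. By FRO there is an `r`-subgroup `U ≠ ⊥` with `N = normalizer U` not `r`-nilpotent; choose `U` such
that the `r`-part of `|N|` is maximal. Let `P₀` be a Sylow `r`-subgroup of `N` (a subgroup of `G`); `U ≤ P₀`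
(`U` is normal in `N`). Conjugating we may assume `P₀ ≤ P`. Suppose `P₀ < P`. Then `N_P(P₀) > P₀`, and
`N_P(P₀) ≤ normalizer (JJ r P₀)` (JP (5)), `JJ r P₀ ≠ ⊥`, and the `r`-part of the order of
`normalizer (JJ r P₀)` is larger than `|P₀|`, so `normalizer (JJ r P₀)` is `r`-nilpotent by the choice of
`U`. `ZS P` centralises `U ≤ P`, so `ZS P ≤ N ⊓ P = P₀` (`P₀` is a Sylow subgroup of `N`), so
`ZS P ≤ ZS P₀` and `centralizer (ZS P₀) ≤ centralizer (ZS P)` is `r`-nilpotent. So the group `N` with the Sylow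
subgroup `P₀` satisfies the hypotheses of `ind` (as in MSUB; `N ≠ ⊤` because `P₀ < P`), and `N` is
`r`-nilpotent, a contradiction. So `P₀ = P`, `P ≤ N`; by MSUB `N = ⊤`: `U` is normal. -/
def S_MNOR : Prop := ∀ (G : Type) [Group G] (r : ℕ) (P : Subgroup G), MC r G P →
  ∃ U : Subgroup G, U.Normal ∧ IsPGroup r U ∧ U ≠ ⊥

/-- **MQ** (1.2 h; PNQ, JP, ZP, MSUB). `G/O_r(G)` is `r`-nilpotent.
Proof. `T ≤ P` (a normal `r`-subgroup is contained in every Sylow subgroup). If `T = P` then `P`, so `JJ r P`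
(JP (5)) is normal, its normalizer is `⊤`, `PN r ⊤` by `hJ`, contradicting `bad`. So `T < P`. `Ḡ = G ⧸ T`,
`P̄ = P.map (mk' T) ≠ ⊥`, a Sylow `r`-subgroup. Let `S̄` be `JJ r P̄` or `ZS P̄`, `≠ ⊥` and normalised by `P̄`,
`S` its preimage: an `r`-group, `T < S`, so `S` is not normal in `G` (`IsOr`), `L = normalizer S ≠ ⊤`,
`P ≤ L`, so `PN r L` (MSUB). `normalizer S̄ ≤ L.map (mk' T)`, so it is `r`-nilpotent (PNQ), and so is
`centralizer (ZS P̄) ≤ normalizer (ZS P̄)`. `ind` for `Ḡ` (`|Ḡ| < |G|` as `T ≠ ⊥`). -/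
def S_MQ : Prop := ∀ (G : Type) [Group G] (r : ℕ) (P : Subgroup G), MC r G P →
  ∀ (T : Subgroup G) [T.Normal], IsOr r T → T ≠ ⊥ → PN r (⊤ : Subgroup (G ⧸ T))

/-- **ME** (1.2 h; PNQ, PNE, NRQ, JP, ZP). There is no normal subgroup `≠ 1` of order prime to `r`.
Proof. Let `E ≠ ⊥` be one. `Ḡ = G ⧸ E`, `P̄ = P.map (mk' E)`, a Sylow `r`-subgroup; `mk' E` is injective on `P`.
`JJ r P̄ = (JJ r P).map`, `ZS P̄ = (ZS P).map` (JP (4), ZP (2)). By NRQ the normalizer of `JJ r P̄` is contained in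
the image of `normalizer (JJ r P)`, so it is `r`-nilpotent (PNQ); similarly the centralizer of `ZS P̄`. `ind`
gives `PN r ⊤` for `Ḡ`, and PNE for `G`: contradiction to `bad`. -/
def S_ME : Prop := ∀ (G : Type) [Group G] (r : ℕ) (P : Subgroup G), MC r G P →
  ∀ E : Subgroup G, E.Normal → ¬ r ∣ Nat.card E → E = ⊥

/-- **MC1** (2 h; PNO, MNOR, MQ, ME). There are `T`, `K` with `TK r T K`.
Proof. `T` = the join of all normal `r`-subgroups of `G` (an `r`-group: it lies in every Sylow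
`r`-subgroup); `≠ ⊥` by MNOR. By MQ and PNO the `r'`-elements of `G ⧸ T` form a normal subgroup `Ō` of order
prime to `r`, with `r`-power quotient; `K` = its preimage. `pow`, `pr` are clear. `cen`: let
`C = K ⊓ centralizer T`, normal in `G`, and `Z = C ⊓ T`; `Z` is central in `C`, an `r`-group, and `|C|/|Z|`
divides `|K|/|T|`, prime to `r`: `Z` is a central Sylow `r`-subgroup of the group `C`. By Burnside's
transfer theorem (`MonoidHom.ker_transferSylow_isComplement'` in Mathlib, for the group `C`: the normalizer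
of `Z` centralises `Z`) there is a homomorphism `C → Z` whose kernel `E` has order prime to `r`; it contains
every `r'`-element of `C` (`Z` is an `r`-group), so `E` is the set of all `r'`-elements of `C`, which is
normal in `G`; `E = ⊥` by ME. So `C` has no `r'`-element `≠ 1`: `C` is an `r`-group, normal in `G`, so
`C ≤ T`. -/
def S_MC1 : Prop := ∀ (G : Type) [Group G] (r : ℕ) (P : Subgroup G), MC r G P →
  ∃ T K : Subgroup G, TK r T K

/-- **MC2** (1.5 h; PNO, MSUB). (1) `T ≤ P`. (2) A proper subgroup containing `P` is `P`.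
(3) `centralizer T ≤ T`. (4) `K ⊔ P = ⊤`.
Proof. (1) clear. (2) `PN r L` (MSUB). The `r'`-elements `O` of `L` (PNO) form a subgroup normalised by `L`.
`O ≤ K`: for `x ∈ O`, `x^(r^n) ∈ K` and `x` is a power of `x^(r^n)`. `T ≤ P ≤ L` normalises `O` and `O`
normalises `T`: `[O, T] ≤ O ⊓ T = ⊥`; so `O ≤ T` by `TK.cen`, `O = ⊥`. So `L` is an `r`-group (PNO: every
`k ∈ L` has some `k^(r^n) ∈ O`), and `P` is a Sylow subgroup: `L = P`. (3) `C = centralizer T` is normal. For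
`g ∈ C`: `g^(r^n) ∈ K ⊓ C ≤ T`; so `C` is an `r`-group, `C ≤ T` by `IsOr`. (4) If not, `K ⊔ P = P` by (2), so
`K ≤ P`, and every `g ∈ G` has `g^(r^n) ∈ K`, so `G` is an `r`-group and `PN r ⊤` is clear: contradiction. -/
def S_MC2 : Prop := ∀ (G : Type) [Group G] (r : ℕ) (P T K : Subgroup G), MC r G P → TK r T K →
  T ≤ P ∧ (∀ L : Subgroup G, P ≤ L → L ≠ ⊤ → L = P) ∧ centralizer (T : Set G) ≤ T ∧ K ⊔ P = ⊤

/-- **MC3** (2 h; MC2). `K/T` is abelian.
Proof. `K̄ = K.map (mk' T)` has order prime to `r`, and it is `≠ ⊥` (otherwise `K = T ≤ P`, and `K ⊔ P = ⊤`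
says that `G = P` is an `r`-group, contradicting `bad`). Let `q` be a prime dividing `|K̄|`. `P` acts by
conjugation on the Sylow `q`-subgroups of `K̄`, whose number divides `|K̄|`, so is prime to `r`: there is a
fixed point `Q̄` (`P` is an `r`-group). Its preimage `Q₁` in `K` is normalised by `P`; `L = Q₁ ⊔ P = Q₁ P`,
`|L| = |Q̄| |P|` (`Q₁ ⊓ P = T` by orders), so `L ≠ P` and `L = ⊤` by MC2 (2); so `|G| = |Q̄| |P|`; but
`|G| = |K P| = |K̄| |P|`: `K̄ = Q̄` is a `q`-group. Its commutator subgroup `K̄'` is proper; let `K₁` be the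
preimage in `K`, normal in `G`. `L = K₁ ⊔ P`, `|L| = |K̄'| |P| < |G|`, so `L = P` by MC2 (2), `K̄' = ⊥`. -/
def S_MC3 : Prop := ∀ (G : Type) [Group G] (r : ℕ) (P T K : Subgroup G), MC r G P → TK r T K →
  ∀ x ∈ K, ∀ y ∈ K, x⁻¹ * (y⁻¹ * x * y) ∈ T

/-- **MC4** (1.5 h; ZP, CD2, MC2). `K/T` acts faithfully on `V = {z ∈ Z(T) | z^r = 1}`.
Proof. (a) `centralizer (ZS P) ≠ ⊤` (`hZ`, `bad`) and it contains `P`; so it is `P` by MC2 (2). (b)
`ZS P ≤ centralizer T ≤ T` (MC2 (1), (3)), so `ZS P ≤ ZS T`. (c) `centralizer (ZS T)` is normal in `G` (`T` is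
normal) and contained in `centralizer (ZS P) = P`, so it is a normal `r`-subgroup and contained in `T`.
(d) Let `k ∈ K` commute with all `v ∈ V`; `orderOf k = r^n m`, `r ∤ m`. `k^m` has `r`-power order, and it lies
in `K`, so in `T` (`pr`: `(k^m)^{m'} ∈ T` with `r ∤ m'`, and `k^m` is a power of `(k^m)^{m'}`).
`k₀ = k^(r^n)` has order `m`, prime to `r`. CD2 for `ZS T` and `Q = ⟨k₀⟩`: if `[ZS T, k₀]`
(the closure in CD2) is `≠ ⊥`, it contains an element `z` of order `r` (Cauchy), `z ∈ V`, so `z` commutes with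
`k₀` (as `k` does) and `z = 1` by CD2. So `k₀` centralises `ZS T`, `k₀ ∈ T` by (c), `k₀ = 1`. So `k` has
`r`-power order, `m = 1`, `k = k^m ∈ T`. -/
def S_MC4 : Prop := ∀ (G : Type) [Group G] (r : ℕ) (P T K : Subgroup G), MC r G P → TK r T K →
  ∀ k ∈ K, (∀ z ∈ ZS T, z ^ r = 1 → k * z = z * k) → k ∈ T

/-- **MC5** (2.5 h; LEME, JP, MC2, MC3, MC4). The contradiction.
Proof. Let `A` with `IsMx r P A`. Claim: `A ≤ T`. Then `JJ r P ≤ T ≤ P`, `JJ r T = JJ r P` (JP (3)), and `T`, so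
`JJ r T` (JP (5)) is normal in `G`: the normalizer of `JJ r P` is `⊤`, contradicting `hJ`, `bad`.
Proof of the claim. `V = {z ∈ ZS T | z^r = 1}` is a normal abelian subgroup of `G`; let `ρ : G →* MulAut V` be
the conjugation (`MulAut.conjNormal`, `ρ g v = g v g⁻¹`), `T ≤ ker ρ`, and `K ⊓ ker ρ ≤ T` (MC4). Use LEME for
`V`, `A.map ρ`, `K.map ρ`: `A.map ρ` is abelian of exponent `r`; `K.map ρ` is abelian by MC3 (`T ≤ ker ρ`) of
order prime to `r` (it is a quotient of `K/T`; if `r` divides its order there is `k ∈ K` with `ρ k` of order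
`r`, and `k^m ∈ T`, `r ∤ m`: contradiction), normalised by `A.map ρ` (`K` is normal). Let `B' ≤ A.map ρ` with
`|A.map ρ| = r |B'|`, `B = A ⊓ B'.comap ρ`: `B.map ρ = B'`, `|A| = r |B|` (`ker (ρ|A) ≤ B`).
`V₁ = {v ∈ V | B centralises v}` (these are the `v` fixed by `B'`), `V₁ ⊔ B ≤ P` (`V ≤ T ≤ P`) is abelian of
exponent `r` (`EA`), so `|V₁ ⊔ B| ≤ |A| = r |B|`, and `|V₁ ⊔ B| |V₁ ⊓ B| = |V₁| |B|`, so
`|V₁| ≤ r |V₁ ⊓ B|`; the elements of `V₁ ⊓ B ≤ A` commute with `A`, so they are fixed by `A.map ρ`. So LEME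
applies: for `a ∈ A`, `k ∈ K`, `ρ` of `a⁻¹ k⁻¹ a k` is `1`, and `a⁻¹ k⁻¹ a k ∈ K` (`K` normal), so it lies in
`T` (MC4). Let `D = {g ∈ P | ∀ k ∈ K, g⁻¹ * (k⁻¹ * g * k) ∈ T}`, a subgroup of `P` containing `T` and `A`.
It is normalised by `P` (`K`, `T` normal) and by `K` (`k⁻¹ g k ∈ g T ⊆ D`), so by `K ⊔ P = ⊤` (MC2 (4)):
`D` is a normal `r`-subgroup, `D ≤ T`. -/
def S_MC5 : Prop := ∀ (G : Type) [Group G] (r : ℕ) (P T K : Subgroup G), MC r G P → TK r T K → False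

/-- **THO** (0.5 h; MC1, MC5). Thompson's normal complement theorem.
Proof. Strong induction on `|G|` (over all groups): a counterexample satisfies `MC r G P`; MC1 and MC5. -/
def S_THO : Prop := ∀ (r : ℕ), r.Prime → r ≠ 2 → ∀ (G : Type) [Group G] [Finite G] (P : Subgroup G),
  IsPGroup r P → ¬ r ∣ P.index → PN r (normalizer ((JJ r P : Subgroup G) : Set G)) →
  PN r (centralizer ((ZS P : Subgroup G) : Set G)) → PN r (⊤ : Subgroup G)

/-! ## Fixed point free automorphisms of prime order -/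

/-- **NPN** (0.8 h). Finite nilpotent groups are `r`-nilpotent.
Proof. `Group.isNilpotent_of_finite_tfae`: `G` is isomorphic to the product of its Sylow subgroups, and the
order of an element is prime to `r` iff its `r`-component is `1`. -/
def S_NPN : Prop := ∀ (G : Type) [Group G] [Finite G] (r : ℕ), r.Prime → Group.IsNilpotent G →
  PN r (⊤ : Subgroup G)

/-- **FPA** (2 h). Case A: there is an `a`-invariant normal subgroup `1 < N < K`.
Proof. The situation: `N`, and `K/N'` for every `a`-invariant subgroup `1 < N' ≤ K` normalised by `K`, are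
nilpotent (here as hypotheses). Let `r` be a prime dividing `|N|`, `N_r` the Sylow `r`-subgroup of the
nilpotent group `N` (the set of its elements of `r`-power order): `≠ ⊥`, `Inv a`, normalised by `K`, an
`r`-group; so `K/N_r` is nilpotent. For each prime `q` let `S` be the `Inv a` Sylow `q`-subgroup of `K`
(`h_SYE`). Claim: `K` normalises `S`. If `q = r`: `N_r ≤ S` (`N_r` is a normal `r`-subgroup of `K`), and
`S/N_r` is a Sylow subgroup of the nilpotent group `K/N_r`, so normal. If `q ≠ r`: `S N_r/N_r` is a Sylow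
`q`-subgroup of `K/N_r`, so `S N_r` is normalised by `K`. By `h_FROB` with `E = N_r`, `V = S` the groups `S` and
`N_r` commute elementwise. So `S` is the set of all elements of `q`-power order of `S N_r`, and `K` normalises
it. So all Sylow subgroups of `K` are normal in `K` and `K` is nilpotent
(`Group.isNilpotent_of_finite_tfae`). -/
def S_FPA : Prop := ∀ (M : Type) [Group M] (a : M) (K N : Subgroup M) (p : ℕ), p.Prime →
  a ^ p = 1 → (K : Set M).Finite → Inv a K → FPF a K → N ≤ K → N ≠ ⊥ → Inv a N →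
  (∀ k ∈ K, ∀ n ∈ N, k⁻¹ * n * k ∈ N) → Group.IsNilpotent N →
  (∀ N' : Subgroup M, N' ≤ K → N' ≠ ⊥ → Inv a N' → (∀ k ∈ K, ∀ n ∈ N', k⁻¹ * n * k ∈ N') →
    ∀ [(N'.subgroupOf K).Normal], Group.IsNilpotent (K ⧸ N'.subgroupOf K)) →
  Group.IsNilpotent K

/-- **FPN** (2.5 h; JP, ZP, PNO, THO, NPN, FPA). Thompson's theorem: a finite group with a fixed point free
automorphism of prime order is nilpotent.
Proof. Strong induction on `|K|` over all `M`, `a`, `K` (`p` fixed). `K ≠ ⊥`. (i) `Inv a` subgroups `L < K` are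
nilpotent (`FPF` is inherited). (ii) If `⊥ ≠ N' ≤ K`, `Inv a N'`, `K` normalises `N'`, then `K/N'` is nilpotent:
let `M' = normalizer N'`, a group containing `K` and `a` (`a⁻¹ N' a = N'`, finite); in `M'/N'` the image of `K`
is finite, `Inv`, and `FPF` (`h_LIFT` with `F = K`, or `h_BIJ`), of order `< |K|`, so nilpotent.
Case A: there is `N` with `⊥ ≠ N < K`, `Inv a N`, normalised by `K`: FPA.
Case B: no such `N`. If `|K|` is a power of `2`, `K` is nilpotent. Otherwise let `r` be an odd prime dividing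
`|K|` and `P` an `Inv a` Sylow `r`-subgroup of `K` (`h_SYE`), `P ≠ ⊥`; if `P = K` it is nilpotent; let
`P < K`. `JJ r P` (computed in `M`, or in the group `K`) is `≠ ⊥` and `Inv a` (JP (5), `cj P a = P`). The
normalizer `L` of `JJ r P` in `K` is `Inv a`. If `L = K` then `JJ r P = K` (Case B), but `JJ r P ≤ P < K`. So
`L < K` is nilpotent by (i), so `r`-nilpotent (NPN). The centralizer `L` of `ZS P` in `K` is `Inv a`; if `L = K`
then `ZS P` is normalised by `K`, `Inv a`, `≠ ⊥`, `≤ P < K`: impossible in Case B. So it is `r`-nilpotent, too.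
THO for the group `K`: the `r'`-elements of `K` form a subgroup `O` (PNO), normalised by `K`, `Inv a`, of order
prime to `r`. `O ≠ K` since `r ∣ |K|`, so `O = ⊥` (Case B) and `K` is an `r`-group: nilpotent. -/
def S_FPN : Prop := ∀ (M : Type) [Group M] (a : M) (K : Subgroup M) (p : ℕ), p.Prime → a ^ p = 1 →
  (K : Set M).Finite → Inv a K → FPF a K → Group.IsNilpotent K

end Pool.Agent.Helper52.SG
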