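import Pool.Agent.Helper13.SG.FIT
import Pool.Agent.Helper20.SG.TORN
import Pool.Agent.Helper87.SG.PFIN
import Pool.Agent.Helper32.SG.PFI2
import Pool.Agent.Helper56.SG.SYLE
import Pool.Agent.Helper84.SG.SYLC
import Pool.Agent.Helper5.SG.FTA
import Pool.Agent.Helper85.SG.FTB
import Pool.Agent.Helper37.SG.FINQ
import Pool.Agent.Helper26.SG.MAIN
import Pool.Agent.Helper71.SG.COR
import Pool.Agent.Helper70.SG.LGE
import Pool.Agent.Helper88.SG.LGU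
import Pool.Agent.Helper24.SG.LGT
import Pool.Agent.Helper64.SG.LGG
import Pool.Agent.Helper42.SG.LGR
import Pool.Agent.Helper59.SG.ILF
import Pool.Agent.Helper40.SG.END
import Pool.Agent.Helper8.SG.LGS
import Pool.Agent.Helper76.SG.LGF
import Pool.Agent.Helper57.SG.PNE
import Pool.Agent.Helper88.SG.FR1
import Pool.Agent.Helper32.SG.FRO
import Pool.Agent.Helper57.SG.MSUB
import Pool.Agent.Helper39.SG.ME
import Pool.Agent.Helper32.SG.MC1
import Pool.Agent.Helper2.SG.MC2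
import Pool.Agent.Helper71.SG.MC5
import Pool.Agent.Helper87.SG.ENDL
import Pool.Agent.Helper26.SG.LEME
import Pool.Agent.Helper9.SG.JP
import Pool.Agent.Helper40.SG.FPA
import Pool.Agent.Helper9.SG.FPN
import Pool.Agent.Helper59.SG.TRI
import Pool.Agent.Helper25.SG.CD2
import Pool.Agent.Helper7.SG.MNOR
import Pool.Agent.Helper98.SG.MQ
import Pool.Agent.Helper30.SG.MC4
import Pool.Agent.Helper98.SG.KREK
import Pool.Agent.Helper37.SG.MET
import Pool.Agent.Helper71.SG.KH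
import Pool.Agent.Helper39.SG.HIG
import Pool.Agent.Helper40.SG.LFFP
import Pool.Agent.Helper16.SG.LIEA
import Pool.Agent.Helper16.SG.MC3
import Pool.Agent.Helper27.SG.CLM
import Pool.Agent.Helper52.SGP.BAS
import Pool.Agent.Helper70.SG.LIEB
import Pool.Agent.Helper52.SGP.PNO
import Pool.Agent.Helper52.SGP.FGT
import Pool.Agent.Helper52.SGP.THO
import Pool.Agent.Helper52.SGP.HALL
import Pool.Agent.Helper52.SGP.ZP

set_option autoImplicit false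

namespace Pool.Agent.Helper52.SG.All

open Pool.H83Shunkov Pool.Agent.Helper29.SH Pool.Agent.Helper52.SG

theorem h_JP : S_JP := Pool.Agent.Helper9.SG.JP.t
theorem h_ZP : S_ZP := Pool.Agent.Helper52.SG.ZP.t
theorem h_NRQ : S_NRQ := Pool.Agent.Helper52.SG.NRQ.t
theorem h_PNO : S_PNO := Pool.Agent.Helper52.SGP.PNO.t
theorem h_PNQ : S_PNQ := Pool.Agent.Helper52.SGP.PNQ.t
theorem h_PNE : S_PNE := Pool.Agent.Helper57.SG.PNE.t
theorem h_CD : S_CD := Pool.Agent.Helper52.SGP.CD.t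
theorem h_CD2 : S_CD2 := Pool.Agent.Helper25.SG.CD2.t
theorem h_FGT : S_FGT := Pool.Agent.Helper52.SGP.FGT.t
theorem h_NPN : S_NPN := Pool.Agent.Helper52.SGP.NPN.t
theorem h_AXB : S_AXB := Pool.Agent.Helper52.SGP.AXB.t h_CD
theorem h_TRI : S_TRI := Pool.Agent.Helper59.SG.TRI.t
theorem h_ENDL : S_ENDL := Pool.Agent.Helper87.SG.ENDL.t
theorem h_LEME : S_LEME := Pool.Agent.Helper26.SG.LEME.t h_CD h_CD2 h_TRI h_AXB h_ENDL
theorem h_FR1 : S_FR1 := Pool.Agent.Helper88.SG.FR1.t h_PNO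
theorem h_FRO : S_FRO := Pool.Agent.Helper32.SG.FRO.t h_PNO h_FR1
theorem h_MSUB : S_MSUB := Pool.Agent.Helper57.SG.MSUB.t h_JP h_ZP
theorem h_MNOR : S_MNOR := Pool.Agent.Helper7.SG.MNOR.t h_FRO h_JP h_ZP h_MSUB
theorem h_MQ : S_MQ := Pool.Agent.Helper98.SG.MQ.t h_PNQ h_JP h_ZP h_MSUB
theorem h_ME : S_ME := Pool.Agent.Helper39.SG.ME.t h_PNQ h_PNE h_NRQ h_JP h_ZP
theorem h_MC1 : S_MC1 := Pool.Agent.Helper32.SG.MC1.t h_PNO h_MNOR h_MQ h_ME
theorem h_MC2 : S_MC2 := Pool.Agent.Helper2.SG.MC2.t h_PNO h_MSUB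
theorem h_MC3 : S_MC3 := Pool.Agent.Helper16.SG.MC3.t h_MC2
theorem h_MC4 : S_MC4 := Pool.Agent.Helper30.SG.MC4.t h_ZP h_CD2 h_MC2
theorem h_MC5 : S_MC5 := Pool.Agent.Helper71.SG.MC5.t h_LEME h_JP h_MC2 h_MC3 h_MC4
theorem h_THO : S_THO := Pool.Agent.Helper52.SGP.THO.t h_MC1 h_MC5
theorem h_FPA : S_FPA := Pool.Agent.Helper40.SG.FPA.t
theorem h_FPN : S_FPN := Pool.Agent.Helper9.SG.FPN.t h_JP h_ZP h_PNO h_THO h_NPN h_FPA
theorem h_KREK : S_KREK := Pool.Agent.Helper98.SG.KREK.t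
theorem h_MET : S_MET := Pool.Agent.Helper37.SG.MET.t
theorem h_HALL : S_HALL := Pool.Agent.Helper52.SGP.HALL.t
theorem h_KH : S_KH := Pool.Agent.Helper71.SG.KH.t h_KREK h_MET h_HALL
theorem h_BAS : S_BAS := Pool.Agent.Helper52.SGP.BAS.t h_KH
theorem h_LIEA : S_LIEA := Pool.Agent.Helper16.SG.LIEA.t
theorem h_LIEB : S_LIEB := Pool.Agent.Helper70.SG.LIEB.t h_LIEA
theorem h_HIG : S_HIG := Pool.Agent.Helper39.SG.HIG.t h_BAS h_LIEB
theorem h_LFF : S_LFF := Pool.Agent.Helper40.SG.LFFP.t h_FPN h_HIG h_FGT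

theorem h_FIT : S_FIT := Pool.Agent.Helper13.SG.FIT.t
theorem h_TORN : S_TORN := Pool.Agent.Helper20.SG.TORN.t h_FIT
theorem h_PFIN : S_PFIN := Pool.Agent.Helper87.SG.PFIN.t h_TORN
theorem h_PFI2 : S_PFI2 := Pool.Agent.Helper32.SG.PFI2.t h_PFIN
theorem h_SYLE : S_SYLE := Pool.Agent.Helper56.SG.SYLE.t
theorem h_SYLC : S_SYLC := Pool.Agent.Helper84.SG.SYLC.t h_TORN h_PFI2 h_SYLE
theorem h_CLM : S_CLM := Pool.Agent.Helper27.SG.CLM.t h_TORN h_PFI2 h_SYLE h_SYLC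
theorem h_FTA : S_FTA := Pool.Agent.Helper5.SG.FTA.t
theorem h_FTB : S_FTB := Pool.Agent.Helper85.SG.FTB.t h_FTA
theorem h_FINQ : S_FINQ := Pool.Agent.Helper37.SG.FINQ.t
theorem h_MAIN : S_MAIN := Pool.Agent.Helper26.SG.MAIN.t h_CLM h_FTB h_LFF h_FINQ
theorem h_COR : S_COR := Pool.Agent.Helper71.SG.COR.t h_FIT h_MAIN
theorem h_LGS : S_LGS := Pool.Agent.Helper8.SG.LGS.t
theorem h_LGF : S_LGF := Pool.Agent.Helper76.SG.LGF.t
theorem h_LGE : S_LGE := Pool.Agent.Helper70.SG.LGE.t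
theorem h_LGU : S_LGU := Pool.Agent.Helper88.SG.LGU.t
theorem h_LGT : S_LGT := Pool.Agent.Helper24.SG.LGT.t
theorem h_LGG : S_LGG := Pool.Agent.Helper64.SG.LGG.t
theorem h_LGR : S_LGR := Pool.Agent.Helper42.SG.LGR.t
theorem h_ILF : S_ILF := Pool.Agent.Helper59.SG.ILF.t h_FIT h_PFIN h_COR h_LGS h_LGF
theorem h_END : S_END := Pool.Agent.Helper40.SG.END.t h_COR h_ILF h_LGS

end Pool.Agent.Helper52.SG.All
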