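import Pool.Agent.Helper29.SH.All

/-!
# Project SG (MP_0a002a_al, locally graded Shunkov groups): definitions

Definitions of project SH (`Pool/Agent/Helper29/SH/Defs.lean`) are used: `IsShunkov`, `Tor`, `Inv`,
`FPF`, `Pr`, `InLF`, `InfTor`; and those of `Pool/Agent/Helper83/Shunkov/*.lean`: `IsLocFin`,
`PairFinite`, `lfRad`, `X`, `Good`.  `x^g = g⁻¹ x g`, `[a, g] = a⁻¹ a^g`.
-/

set_option autoImplicit false

namespace Pool.Agent.Helper52.SG

open Subgroup Pool.H83Shunkov Pool.Agent.Helper29.SH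

section basic

variable {G : Type} [Group G]

/-- the conjugate `K^g = g⁻¹ K g` -/
def cj (K : Subgroup G) (g : G) : Subgroup G := K.map (MulAut.conj g⁻¹).toMonoidHom

theorem mem_cj {K : Subgroup G} {g x : G} : x ∈ cj K g ↔ g * x * g⁻¹ ∈ K := by
  constructor
  · rintro ⟨y, hy, rfl⟩
    have : g * ((MulAut.conj g⁻¹).toMonoidHom y) * g⁻¹ = y := by
      show g * (g⁻¹ * y * g⁻¹⁻¹) * g⁻¹ = y
      group
    rw [this]
    exact hy
  · intro h
    refine ⟨_, h, ?_⟩
    show g⁻¹ * (g * x * g⁻¹) * g⁻¹⁻¹ = x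
    group

theorem conj_mem_cj {K : Subgroup G} {g x : G} (hx : x ∈ K) : g⁻¹ * x * g ∈ cj K g := by
  rw [mem_cj]
  have : g * (g⁻¹ * x * g) * g⁻¹ = x := by group
  rwa [this]

theorem cj_mul (K : Subgroup G) (g h : G) : cj (cj K g) h = cj K (g * h) := by
  ext x
  rw [mem_cj, mem_cj, mem_cj]
  have : g * (h * x * h⁻¹) * g⁻¹ = g * h * x * (g * h)⁻¹ := by group
  rw [this]

theorem cj_one (K : Subgroup G) : cj K 1 = K := by
  ext x
  rw [mem_cj]
  simp

theorem cj_inv_cancel (K : Subgroup G) (g : G) : cj (cj K g) g⁻¹ = K := by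
  rw [cj_mul, mul_inv_cancel, cj_one]

theorem cj_mono {K L : Subgroup G} (h : K ≤ L) (g : G) : cj K g ≤ cj L g := by
  intro x hx
  rw [mem_cj] at hx ⊢
  exact h hx

theorem cj_inf (K L : Subgroup G) (g : G) : cj (K ⊓ L) g = cj K g ⊓ cj L g := by
  ext x
  rw [mem_inf, mem_cj, mem_cj, mem_cj, mem_inf]

theorem card_cj (K : Subgroup G) (g : G) : Nat.card (cj K g) = Nat.card K := by
  have e : K ≃* cj K g := K.equivMapOfInjective _ (MulAut.conj g⁻¹).injective
  exact (Nat.card_congr e.toEquiv).symm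

theorem cj_finite {K : Subgroup G} (h : (K : Set G).Finite) (g : G) :
    ((cj K g : Subgroup G) : Set G).Finite := h.image _

theorem cj_isPGroup {p : ℕ} {K : Subgroup G} (h : IsPGroup p K) (g : G) :
    IsPGroup p (cj K g) := h.map _

theorem cj_eq_of_mem {K : Subgroup G} {g : G} (hg : g ∈ K) : cj K g = K := by
  ext x
  rw [mem_cj]
  constructor
  · intro h
    have := K.mul_mem (K.mul_mem (K.inv_mem hg) h) hg
    have e : g⁻¹ * (g * x * g⁻¹) * g = x := by group
    rwa [e] at this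
  · intro h
    exact K.mul_mem (K.mul_mem hg h) (K.inv_mem hg)

theorem mem_normalizer_iff_cj {K : Subgroup G} {g : G} :
    g ∈ normalizer (K : Set G) ↔ cj K g = K := by
  rw [Subgroup.mem_normalizer_iff]
  constructor
  · intro h
    ext x
    rw [mem_cj]
    exact (h x).symm
  · intro h x
    have h1 : x ∈ cj K g ↔ x ∈ K := by rw [h]
    rw [mem_cj] at h1
    exact h1.symm

/-- `K` contains a conjugate of `a` -/
def HasC (a : G) (K : Subgroup G) : Prop := ∃ g : G, g⁻¹ * a * g ∈ K

theorem HasC.mono {a : G} {K L : Subgroup G} (h : HasC a K) (hKL : K ≤ L) : HasC a L := by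
  obtain ⟨g, hg⟩ := h
  exact ⟨g, hKL hg⟩

theorem HasC.cj {a : G} {K : Subgroup G} (h : HasC a K) (x : G) : HasC a (cj K x) := by
  obtain ⟨g, hg⟩ := h
  refine ⟨g * x, ?_⟩
  have := conj_mem_cj (g := x) hg
  have e : x⁻¹ * (g⁻¹ * a * g) * x = (g * x)⁻¹ * a * (g * x) := by group
  rwa [e] at this

theorem hasC_conj {a : G} (x : G) {K : Subgroup G} : HasC (x⁻¹ * a * x) K ↔ HasC a K := by
  constructor
  · rintro ⟨g, hg⟩
    refine ⟨x * g, ?_⟩
    have e : g⁻¹ * (x⁻¹ * a * x) * g = (x * g)⁻¹ * a * (x * g) := by group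
    rwa [← e]
  · rintro ⟨g, hg⟩
    refine ⟨x⁻¹ * g, ?_⟩
    have e : (x⁻¹ * g)⁻¹ * (x⁻¹ * a * x) * (x⁻¹ * g) = g⁻¹ * a * g := by group
    rwa [e]

/-- The situation of the proof (to be contradicted): `a` has prime order `p`, finitely many elements
of finite order commute with `a`, and `a` lies in no infinite locally finite subgroup. -/
structure St (a : G) (p : ℕ) : Prop where
  sh : IsShunkov G
  hp : p.Prime
  ord : orderOf a = p
  tor : (Tor (centralizer ({a} : Set G))).Finite
  nlf : ¬ InLF a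

/-- `S` is a maximal `p`-subgroup of `M`, and it contains a conjugate of `a` -/
structure Syl (a : G) (p : ℕ) (M S : Subgroup G) : Prop where
  le : S ≤ M
  pg : IsPGroup p S
  hc : HasC a S
  max : ∀ S' : Subgroup G, S' ≤ M → IsPGroup p S' → S ≤ S' → S' ≤ S

/-- the quotient by the (normal) subgroup `R` is residually finite -/
def RFm (R : Subgroup G) : Prop :=
  ∀ x : G, x ∉ R → ∃ M : Subgroup G, M.Normal ∧ M.FiniteIndex ∧ R ≤ M ∧ x ∉ M

/-- `G` is generated by finitely many pair-finite elements -/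
def PG (G : Type) [Group G] : Prop :=
  ∃ S : Finset G, closure (S : Set G) = ⊤ ∧ ∀ s ∈ S, PairFinite s

/-- `G` has an infinite residually finite quotient -/
def IQ (G : Type) [Group G] : Prop :=
  ∃ (R : Subgroup G) (_ : R.Normal), Infinite (G ⧸ R) ∧ RFm R

/-- every infinite subgroup which is generated by finitely many pair-finite elements has an infinite
residually finite quotient -/
def LG (G : Type) [Group G] : Prop :=
  ∀ K : Subgroup G, PG K → Infinite K → IQ K

/-- `a` is pair-finite in a Shunkov group if it has prime order -/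
theorem pairFinite_of_prime (hS : IsShunkov G) {a : G} {p : ℕ} (hp : p.Prime)
    (ha : orderOf a = p) : PairFinite a := by
  intro g
  have h := hS ⊥ (by simp) a (g⁻¹ * a * g) g⁻¹ p hp
  have hn : normalizer ((⊥ : Subgroup G) : Set G) = ⊤ := normalizer_eq_top_iff.2 inferInstance
  rw [hn] at h
  have h1 := h trivial trivial trivial (by rw [← ha, pow_orderOf_eq_one]; exact one_mem _)
    (by
      rw [mem_bot]
      rintro rfl
      rw [orderOf_one] at ha
      exact hp.one_lt.ne ha)
    (by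
      have : (g⁻¹ * a * g⁻¹⁻¹)⁻¹ * (g⁻¹ * a * g) = 1 := by group
      rw [this]
      exact one_mem _)
  exact h1.subset (closure_mono Set.subset_union_left)

theorem InLF.conj {a : G} (h : InLF a) (g : G) : InLF (g⁻¹ * a * g) := by
  obtain ⟨K, h1, h2, h3⟩ := h
  refine ⟨cj K g, conj_mem_cj h1, ?_, h3.map _⟩
  exact h2.image (Set.injOn_of_injective (MulAut.conj g⁻¹).injective)

/-- the setting is invariant under conjugation -/
theorem St.conj {a : G} {p : ℕ} (h : St a p) (g : G) : St (g⁻¹ * a * g) p where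
  sh := h.sh
  hp := h.hp
  ord := by
    have h1 : orderOf ((MulAut.conj g⁻¹) a) = orderOf a :=
      orderOf_injective (MulAut.conj g⁻¹).toMonoidHom (MulAut.conj g⁻¹).injective a
    have h2 : (MulAut.conj g⁻¹) a = g⁻¹ * a * g := by
      show g⁻¹ * a * g⁻¹⁻¹ = _
      group
    rw [← h2, h1, h.ord]
  tor := by
    have h1 := h.tor.image (fun x => g⁻¹ * x * g)
    refine h1.subset ?_
    rintro t ⟨ht1, ht2⟩
    refine ⟨g * t * g⁻¹, ⟨?_, ?_⟩, ?_⟩
    · rw [mem_centralizer_singleton_iff] at ht1 ⊢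
      have e : t * (g⁻¹ * a * g) = g⁻¹ * a * g * t := ht1
      calc g * t * g⁻¹ * a = g * (t * (g⁻¹ * a * g)) * g⁻¹ := by group
        _ = g * (g⁻¹ * a * g * t) * g⁻¹ := by rw [e]
        _ = a * (g * t * g⁻¹) := by group
    · have h2 := MonoidHom.isOfFinOrder (MulAut.conj g).toMonoidHom ht2
      exact h2
    · show g⁻¹ * (g * t * g⁻¹) * g = t
      group
  nlf := by
    intro h1
    apply h.nlf
    have h2 := InLF.conj h1 g⁻¹
    have e : g⁻¹⁻¹ * (g⁻¹ * a * g) * g⁻¹ = a := by group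
    rwa [e] at h2

theorem St.ne_one {a : G} {p : ℕ} (h : St a p) : a ≠ 1 := by
  rintro rfl
  have := h.ord
  rw [orderOf_one] at this
  exact h.hp.one_lt.ne this

theorem St.pow {a : G} {p : ℕ} (h : St a p) : a ^ p = 1 := by
  rw [← h.ord, pow_orderOf_eq_one]

theorem St.fin_order {a : G} {p : ℕ} (h : St a p) : IsOfFinOrder a := by
  rw [← orderOf_pos_iff, h.ord]
  exact h.hp.pos

theorem St.pair {a : G} {p : ℕ} (h : St a p) : PairFinite a := pairFinite_of_prime h.sh h.hp h.ord

end basic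

end Pool.Agent.Helper52.SG
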