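import Pool.Agent.Helper52.SG.Defs

/-!
# Project SG, part 2 (Thompson's theorem): definitions
-/

set_option autoImplicit false

namespace Pool.Agent.Helper52.SG

open Subgroup Pool.H83Shunkov Pool.Agent.Helper29.SH

section

variable {G : Type} [Group G]

/-- `K` is `r`-nilpotent: the elements of `K` of order prime to `r` are closed under multiplication -/
def PN (r : ℕ) (K : Subgroup G) : Prop :=
  ∀ x ∈ K, ∀ y ∈ K, ¬ r ∣ orderOf x → ¬ r ∣ orderOf y → ¬ r ∣ orderOf (x * y)

theorem PN.mono {r : ℕ} {K L : Subgroup G} (h : K ≤ L) (hL : PN r L) : PN r K :=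
  fun x hx y hy => hL x (h hx) y (h hy)

theorem PN.sub {r : ℕ} {K : Subgroup G} : PN r (⊤ : Subgroup K) ↔ PN r K := by
  constructor
  · intro h x hx y hy h1 h2
    have := h ⟨x, hx⟩ trivial ⟨y, hy⟩ trivial (by rwa [Subgroup.orderOf_mk])
      (by rwa [Subgroup.orderOf_mk])
    rw [← Subgroup.orderOf_coe] at this
    exact this
  · intro h x _ y _ h1 h2
    have := h x x.2 y y.2 (by rwa [Subgroup.orderOf_coe]) (by rwa [Subgroup.orderOf_coe])
    rw [← Subgroup.orderOf_coe]
    exact this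

/-- injective homomorphisms -/
theorem PN.comap {G' : Type} [Group G'] {r : ℕ} {f : G →* G'} (hf : Function.Injective f)
    {K : Subgroup G} {L : Subgroup G'} (h : K.map f ≤ L) (hL : PN r L) : PN r K := by
  intro x hx y hy h1 h2
  have := hL (f x) (h ⟨x, hx, rfl⟩) (f y) (h ⟨y, hy, rfl⟩) (by rwa [orderOf_injective f hf])
    (by rwa [orderOf_injective f hf])
  rw [← map_mul, orderOf_injective f hf] at this
  exact this

/-- `A` is abelian of exponent (dividing) `r` -/
def EA (r : ℕ) (A : Subgroup G) : Prop := (∀ x ∈ A, x ^ r = 1) ∧ ∀ x ∈ A, ∀ y ∈ A, x * y = y * x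

/-- `A` is an elementary abelian subgroup of `P` of maximal order -/
def IsMx (r : ℕ) (P A : Subgroup G) : Prop :=
  A ≤ P ∧ EA r A ∧ ∀ B : Subgroup G, B ≤ P → EA r B → Nat.card B ≤ Nat.card A

/-- the Thompson subgroup `J(P)` (generated by the elementary abelian subgroups of maximal order) -/
def JJ (r : ℕ) (P : Subgroup G) : Subgroup G := sSup {A | IsMx r P A}

/-- the center `Z(P)` as a subgroup of `G` -/
def ZS (P : Subgroup G) : Subgroup G := P ⊓ centralizer (P : Set G)

/-- A counterexample of least order to Thompson's theorem. `P` is a Sylow `r`-subgroup of `G`. -/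
structure MC (r : ℕ) (G : Type) [Group G] (P : Subgroup G) : Prop where
  fin : Finite G
  hr : r.Prime
  h2 : r ≠ 2
  pg : IsPGroup r P
  idx : ¬ r ∣ P.index
  hJ : PN r (normalizer ((JJ r P : Subgroup G) : Set G))
  hZ : PN r (centralizer ((ZS P : Subgroup G) : Set G))
  bad : ¬ PN r (⊤ : Subgroup G)
  ind : ∀ (G' : Type) [Group G'] [Finite G'], Nat.card G' < Nat.card G → ∀ P' : Subgroup G',
    IsPGroup r P' → ¬ r ∣ P'.index → PN r (normalizer ((JJ r P' : Subgroup G') : Set G')) →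
    PN r (centralizer ((ZS P' : Subgroup G') : Set G')) → PN r (⊤ : Subgroup G')

/-- `T` is the largest normal `r`-subgroup `O_r(G)` -/
def IsOr (r : ℕ) (T : Subgroup G) : Prop :=
  T.Normal ∧ IsPGroup r T ∧ ∀ U : Subgroup G, U.Normal → IsPGroup r U → U ≤ T

/-- `T = O_r(G)`, and `K/T` is a normal subgroup of `G/T` of order prime to `r` such that `G/K` is an
`r`-group, with `C_K(T) ≤ T` -/
structure TK (r : ℕ) (T K : Subgroup G) : Prop where
  or : IsOr r T
  nt : T ≠ ⊥
  nor : K.Normal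
  le : T ≤ K
  pow : ∀ g : G, ∃ n : ℕ, g ^ r ^ n ∈ K
  pr : ∀ x ∈ K, ∃ m : ℕ, ¬ r ∣ m ∧ x ^ m ∈ T
  cen : ∀ x ∈ K, (∀ t ∈ T, x * t = t * x) → x ∈ T

end

end Pool.Agent.Helper52.SG
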