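import Pool.Agent.Helper52.SG.Defs2

/-!
# Project SG, part 3 (Lie rings): definitions
-/

set_option autoImplicit false

namespace Pool.Agent.Helper52.SG

open Subgroup
open scoped commutatorElement

/-- `Γ_n` of the group `B` (`Γ_0 = B`, `Γ_{n+1} = [Γ_n, B]`) -/
abbrev Gm (B : Type) [Group B] (n : ℕ) : Subgroup B := (⊤ : Subgroup B).lowerCentralSeries n

section

variable {N : Type} [LieRing N]

/-- the additive subgroup generated by the brackets `⁅a, b⁆`, `a ∈ A`, `b ∈ B` -/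
def br (A B : AddSubgroup N) : AddSubgroup N :=
  AddSubgroup.closure {x | ∃ a ∈ A, ∃ b ∈ B, x = ⁅a, b⁆}

theorem mem_br {A B : AddSubgroup N} {a b : N} (ha : a ∈ A) (hb : b ∈ B) : ⁅a, b⁆ ∈ br A B :=
  AddSubgroup.subset_closure ⟨a, ha, b, hb, rfl⟩

theorem br_le {A B C : AddSubgroup N} (h : ∀ a ∈ A, ∀ b ∈ B, ⁅a, b⁆ ∈ C) : br A B ≤ C := by
  rw [br, AddSubgroup.closure_le]
  rintro x ⟨a, ha, b, hb, rfl⟩
  exact h a ha b hb

theorem br_mono {A A' B B' : AddSubgroup N} (hA : A ≤ A') (hB : B ≤ B') : br A B ≤ br A' B' :=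
  br_le fun _ ha _ hb => mem_br (hA ha) (hB hb)

/-- `[J, N, .., N]` -/
def AI (J : AddSubgroup N) : ℕ → AddSubgroup N
  | 0 => J
  | n + 1 => br (AI J n) ⊤

/-- the lower central series of the Lie subring `I` (`LI I 0 = I`, `LI I (n+1) = [LI I n, I]`) -/
def LI (I : AddSubgroup N) : ℕ → AddSubgroup N
  | 0 => I
  | n + 1 => br (LI I n) I

/-- a family of additive subgroups indexed by `ℤ/p` with `W 0 = 0` and `[W i, W j] ≤ W (i + j)` -/
structure GrF {p : ℕ} (W : ZMod p → AddSubgroup N) : Prop where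
  zero : W 0 = ⊥
  mul : ∀ i j, ∀ x ∈ W i, ∀ y ∈ W j, ⁅x, y⁆ ∈ W (i + j)

/-- the derived family -/
def DW {p : ℕ} (W : ZMod p → AddSubgroup N) : ZMod p → AddSubgroup N :=
  fun c => ⨆ a, br (W a) (W (c - a))

theorem DW_le {p : ℕ} {W : ZMod p → AddSubgroup N} (hW : GrF W) (c : ZMod p) : DW W c ≤ W c := by
  refine iSup_le fun a => br_le fun x hx y hy => ?_
  have := hW.mul _ _ x hx y hy
  rwa [add_sub_cancel] at this

theorem mem_DW {p : ℕ} {W : ZMod p → AddSubgroup N} {i j : ZMod p} {x y : N} (hx : x ∈ W i)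
    (hy : y ∈ W j) : ⁅x, y⁆ ∈ DW W (i + j) := by
  refine (le_iSup (fun a => br (W a) (W (i + j - a))) i) (mem_br hx ?_)
  rwa [add_sub_cancel_left]

theorem GrF.DW {p : ℕ} {W : ZMod p → AddSubgroup N} (hW : GrF W) : GrF (DW W) where
  zero := by
    rw [eq_bot_iff, ← hW.zero]
    exact DW_le hW 0
  mul := fun i j x hx y hy => mem_DW (DW_le hW i hx) (DW_le hW j hy)

end

/-- The associated Lie ring of the lower central series of a group `B`: `c n x` is the class of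
`x ∈ Γ_n` in `Γ_n/Γ_{n+1}`, the component of degree `n + 1` of `L` (and junk if `x ∉ Γ_n`).
`⁅x, y⁆ = x y x⁻¹ y⁻¹` for group elements. -/
structure LieOf (B : Type) [Group B] (L : Type) [LieRing L] where
  c : ℕ → B → L
  mul : ∀ n x y, x ∈ Gm B n → y ∈ Gm B n → c n (x * y) = c n x + c n y
  zero : ∀ n x, x ∈ Gm B n → (c n x = 0 ↔ x ∈ Gm B (n + 1))
  lie : ∀ m n x y, x ∈ Gm B m → y ∈ Gm B n → ⁅c m x, c n y⁆ = c (m + n + 1) ⁅x, y⁆
  span : AddSubgroup.closure {l | ∃ n x, x ∈ Gm B n ∧ l = c n x} = ⊤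
  lift : ∀ (A : Type) [AddCommGroup A] (f : ℕ → B → A),
    (∀ n x y, x ∈ Gm B n → y ∈ Gm B n → f n (x * y) = f n x + f n y) →
    (∀ n x, x ∈ Gm B (n + 1) → f n x = 0) →
    ∃ F : L →+ A, ∀ n x, x ∈ Gm B n → F (c n x) = f n x

end Pool.Agent.Helper52.SG
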