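import Pool.Agent.Helper52.SG.Defs

/-!
# Project SG (MP_0a002a_al): goals, part 1 (the group theory)

THEOREM.  Let `G` be a Shunkov group with infinitely many elements of finite order such that `LG G`
(for example a locally graded group).  Then every element of odd prime order lies in an infinite
locally finite subgroup.

Notation: `x^g = g⁻¹ x g`, `[a, g] = a⁻¹ a^g = a⁻¹ * (g⁻¹ * a * g)`, `cj K g = g⁻¹ K g`,
`Pr a g = ⟨a, a^g⟩`.  Definitions and API: `Pool/Agent/Helper52/SG/Defs.lean`.  All goals of project SH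
are available as theorems `Pool.Agent.Helper29.SH.h_BIJ`, `h_MAX`, `h_LFA`, `h_SSUB`, `h_SQUO`,
`h_POW`, `h_CARD`, `h_SYE`, `h_SYC`, `h_FROB`, `h_LIFT`, `h_TPR`, ... (statements in
`Pool/Agent/Helper29/SH/Goals.lean`); the file `Pool/Agent/Helper83/Shunkov/Final.lean` has
`Good.X`, `shunkov_conclusion`, `exists_prime_pow`, `good_abelian`, `good_extension`,
`good_finite`, `good_torsionFree`, `mem_lfRad_of_comm`, `finite_normalClosure`.
-/

set_option autoImplicit false

namespace Pool.Agent.Helper52.SG

open Subgroup Pool.H83Shunkov Pool.Agent.Helper29.SH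

/-! ## Finite torsion -/

/-- **FIT** (1.2 h). A Shunkov group with a subgroup of finite index which has finitely many elements
of finite order.
Proof. Let `C₀ = C.normalCore` (normal, finite index, `Tor C₀ ⊆ Tor C` finite). Each `t ∈ Tor C₀` has
finitely many conjugates in the group `C₀` (they lie in `Tor C₀`), so its centralizer in `C₀` has
finite index (orbit-stabiliser) and `t ∈ lfRad C₀` (`mem_lfRad_of_comm`); the elements of `lfRad C₀`
have finite order, so `Tor C₀ = lfRad C₀` (as a subset of `C₀`) is a finite subgroup; let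
`T = (lfRad C₀).map C₀.subtype`, normal in `N`. `C₀/lfRad C₀` is torsion-free (if `x^n ∈ lfRad C₀`
then `x` has finite order), so `C₀` is `Good` (`good_extension`, `good_finite`, `good_torsionFree`),
and `N` is `Good` (`good_extension` for `C₀`, `N/C₀` finite). So `X N` (`Good.X`). If the set of
elements of finite order of `N` was infinite, `lfRad N` would be infinite (`shunkov_conclusion`); but
`lfRad N ∩ C₀ ⊆ Tor C₀` is finite and `C₀` has finite index in `N`. So it is finite, and then every
`t` of finite order has finitely many conjugates, so `t ∈ lfRad N` as above. -/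
def S_FIT : Prop := ∀ (N : Type) [Group N], IsShunkov N → ∀ C : Subgroup N, C.FiniteIndex →
  (Tor C).Finite →
  {t : N | IsOfFinOrder t}.Finite ∧ ∀ t : N, IsOfFinOrder t → t ∈ lfRad N

/-- **TORN** (1 h; FIT). The elements of finite order of the normalizer of a finite subgroup which
contains a conjugate of `a` form a finite subgroup.
Proof. Let `N = normalizer D`, a Shunkov group (`h_SSUB`), `C = centralizer D` (inside `N`, of finite
index since `D` is finite: `N` acts on the finite set `D` with kernel `C`). If `a^g ∈ D` then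
`C ≤ centralizer {a^g}`, and `Tor (centralizer {a^g})` is finite (`St.conj`). FIT for `N` and `C`: the
elements of finite order of `N` form the set `lfRad N`, finite; `T` is its image in `G`. -/
def S_TORN : Prop := ∀ (G : Type) [Group G] (a : G) (p : ℕ), St a p → ∀ D : Subgroup G,
  (D : Set G).Finite → HasC a D →
  ∃ T : Subgroup G, (T : Set G).Finite ∧ (T : Set G) = Tor (normalizer (D : Set G))

/-- **PFIN** (1.5 h; TORN). If every finite subgroup of `B` which contains `a` is a `p`-group then all
of them lie in one finite subgroup `D` of `B`.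
Proof. `h_MAX` with `P M := M ≤ B ∧ M finite ∧ a ∈ M` (`⟨a⟩` is such) gives a maximal one, `D`. Suppose
that some finite `E ≤ B` with `a ∈ E` does not lie in `D`; choose one with `|D ∩ E|` maximal (bounded
by `|D|`). `X = D ∩ E` contains `a`; `X ≠ E`, and `X ≠ D` (otherwise `D ≤ E`, so `E ≤ D` by the
maximality of `D`). `D`, `E` are finite `p`-groups, so nilpotent, and the normalizer condition gives
`N_D(X) > X`, `N_E(X) > X`. Let `T` be the finite subgroup of TORN for `X`; `K = T ∩ B` is finite and
contains `N_D(X)`, `N_E(X)` and `a`. If `K ≤ D` then `N_E(X) ≤ D ∩ E = X`, a contradiction. Otherwise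
`|D ∩ K| ≥ |N_D(X)| > |X|` contradicts the choice of `E`. -/
def S_PFIN : Prop := ∀ (G : Type) [Group G] (a : G) (p : ℕ), St a p → ∀ B : Subgroup G, a ∈ B →
  (∀ K : Subgroup G, K ≤ B → (K : Set G).Finite → a ∈ K → IsPGroup p K) →
  ∃ D : Subgroup G, D ≤ B ∧ (D : Set G).Finite ∧ a ∈ D ∧
    ∀ K : Subgroup G, K ≤ B → (K : Set G).Finite → a ∈ K → K ≤ D

/-- **PFI2** (0.8 h; PFIN). `p`-subgroups which contain a conjugate of `a` are finite.
Proof. Replace `a` by a conjugate (`St.conj`), so `a ∈ B` (or replace `B` by `cj B g⁻¹`). PFIN gives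
`D`. For `g ∈ B` the group `Pr a g` is finite (`St.pair`), contained in `B` and contains `a`, so
`a^g ∈ D`: `a` has finitely many conjugates in the group `B`, its centralizer `C` in `B` has finite
index. The elements of `B` have finite order, so `C ⊆ Tor (centralizer {a})` is finite. So `B` is
finite. -/
def S_PFI2 : Prop := ∀ (G : Type) [Group G] (a : G) (p : ℕ), St a p → ∀ B : Subgroup G,
  IsPGroup p B → HasC a B → (B : Set G).Finite

/-! ## Sylow theory -/

/-- **SYLE** (0.8 h). Proof. Zorn's lemma for the set of the `p`-subgroups `S` with `B ≤ S ≤ M`: the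
union of a nonempty chain is a `p`-group (`mem_sSup_of_directedOn` or so). -/
def S_SYLE : Prop := ∀ (G : Type) [Group G] (a : G) (p : ℕ) (M B : Subgroup G), B ≤ M →
  IsPGroup p B → HasC a B → ∃ S : Subgroup G, Syl a p M S ∧ B ≤ S

/-- **SYLC** (2 h; TORN, PFI2, SYLE). Sylow's theorem for the maximal `p`-subgroups of `M` which
contain a conjugate of `a`.
Proof. All `S` with `Syl a p M S` are finite (PFI2). Fix `P`, and call `Q` with `Syl a p M Q` bad if
`Q` is not `cj P m` for any `m ∈ M`. Suppose that there is a bad `Q`. `cj Q m` is bad for `m ∈ M`.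
Step 1: there is a bad `Q` such that `P ⊓ Q` contains a conjugate of `a`. Let `a' ∈ P`, `a'' ∈ Q` be
conjugates of `a`. `F = ⟨a', a''⟩` is finite (`PairFinite.conj_pair`) and contained in `M`. `a'` lies in
a Sylow `p`-subgroup `S₀` of `F`, and a conjugate `a''^f`, `f ∈ F`, lies in `S₀`, too (Sylow). Let
`S ≥ S₀` with `Syl a p M S` (SYLE). If `S` is bad we are done (`a' ∈ P ⊓ S`). If `S = cj P m` then
`cj Q (f m⁻¹)` is bad and contains `m a''^f m⁻¹`, which lies in `cj S m⁻¹ = P`.
Step 2: among the bad `Q` such that `P ⊓ Q` contains a conjugate of `a` choose one with `|P ⊓ Q|`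
maximal (bounded by `|P|`). `X = P ⊓ Q`. `X ≠ P` and `X ≠ Q` (otherwise `P ≤ Q` or `Q ≤ P`, so
`P = Q` by maximality, not bad). So `N_P(X) > X`, `N_Q(X) > X` (finite `p`-groups). Let `T` be the finite
subgroup of TORN for `X` (the elements of finite order of `normalizer X`), `K = T ⊓ M`; it contains
`N_P(X)` and `N_Q(X)`. By Sylow's theorem in `K` there are `k ∈ K` and a `p`-subgroup `S₀` of `K` with
`N_P(X) ≤ S₀`, `cj N_Q(X) k ≤ S₀`. Let `S ≥ S₀`, `Syl a p M S` (`S₀ ≥ X` contains a conjugate of `a`).
`P ⊓ S ≥ N_P(X)` has more elements than `X` and contains a conjugate of `a`, so `S` is not bad: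
`S = cj P m`. `S ⊓ cj Q k ≥ cj N_Q(X) k ≥ cj X k = X`. Conjugating with `m⁻¹`: `P ⊓ cj Q (k m⁻¹)`
contains `cj (N_Q(X)) (k m⁻¹)`, which has more elements than `X` and contains `cj X m⁻¹`, which
contains a conjugate of `a`; and `cj Q (k m⁻¹)` is bad: a contradiction. -/
def S_SYLC : Prop := ∀ (G : Type) [Group G] (a : G) (p : ℕ), St a p → ∀ M S S' : Subgroup G,
  Syl a p M S → Syl a p M S' → ∃ m ∈ M, S' = cj S m

/-! ## The quotient by an infinite normal subgroup -/

/-- **CLM** (2.5 h; TORN, PFI2, SYLE, SYLC). The key step: modulo `R` the element `b` acts without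
fixed points on the parts in `M` of the finite subgroups which contain it.
Proof. Write `R' = (R ⊔ zpowers b).map H.subtype`, a subgroup of `G` (`R` is normal in `H`, so its
elements are the `b^j r`). The group `⟨b⟩` is a `p`-group in `R'`; by SYLE there is `P` with
`Syl b p R' P` and `b ∈ P`; `P` is finite (PFI2). The set `Z` of all `t : H` of finite order, `t ∉ R`, such
that `(t : G)` normalises some subgroup `S ≤ P` with `HasC b S` is finite (finitely many `S`, TORN). For
`t ∈ Z` there is a normal subgroup `M_t ≥ R` of finite index of `H` with `t ∉ M_t` (`RFm R`). Let `M` be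
the intersection of the `M_t`, `t ∈ Z` (`⊤` if `Z = ∅`).
Let `K`, `x` be as in the statement. `K₀ = K ⊓ R` is normal in `K`, `K₁ = K₀ ⊔ zpowers b ≤ K`. Since
`[b, x] ∈ K₀`, `x` normalises `K₁`. Let `S` be a Sylow `p`-subgroup of the finite group `K₁` with
`b ∈ S`. `cj S x` is also a Sylow `p`-subgroup of `K₁`, so `cj S x = cj S k` with `k ∈ K₁`; `k = b^j k₀`
with `k₀ ∈ K₀`, and `cj S (b^j) = S` as `b ∈ S`; so `cj S x = cj S k₀`, and `y = x k₀⁻¹ ∈ K` normalises
`S`; `y ∈ M` because `k₀ ∈ R ≤ M`. `S` (mapped to `G`) is a `p`-subgroup of `R'`, let `S' ≥ S` with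
`Syl b p R' S'` (SYLE). By SYLC `S' = cj P r` with `r ∈ R'`, `r = b^j r₀`, `r₀ ∈ R`, and `cj P b^j = P`
since `b ∈ P`; so `S' = cj P r₀`. Then `cj S r₀⁻¹ ≤ P` contains a conjugate of `b`, and it is normalised
by `r₀ y r₀⁻¹`, which has finite order (`y ∈ K`) and lies in `M` (normal). So `r₀ y r₀⁻¹ ∈ R` (otherwise
it is in `Z`, so not in `M`), `y ∈ R` (`R` normal) and `x = y k₀ ∈ R`. -/
def S_CLM : Prop := ∀ (G : Type) [Group G] (H : Subgroup G) (b : H) (p : ℕ), St (b : G) p →
  ∀ (R : Subgroup H), R.Normal → RFm R →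
  ∃ M : Subgroup H, M.Normal ∧ M.FiniteIndex ∧ R ≤ M ∧
    ∀ K : Subgroup H, (K : Set H).Finite → b ∈ K → ∀ x ∈ K, x ∈ M → b⁻¹ * (x⁻¹ * b * x) ∈ R →
      x ∈ R

/-- **FTA** (1 h). This is FT1 of project SH (`Pool/Agent/Helper29/SH/FT1.lean`, proved from BIJ and
POW) with a weaker hypothesis: only the elements of the groups `Pr a g ∩ N`, `g ∈ N`, are assumed not to
commute with `a`. Copy the proof: the hypothesis is used there only for elements of
`A(g) = Pr a g ∩ N`, `A(h)` and (conjugated by `x'`) of `Pr a (z' x'⁻¹) ∩ N`. See the docstring of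
`S_FT1`. -/
def S_FTA : Prop := ∀ (G : Type) [Group G] (a : G) (N : Subgroup G) (p : ℕ), p.Prime → p ≠ 2 →
  a ^ p = 1 → Inv a N → (∀ g ∈ N, ((Pr a g : Subgroup G) : Set G).Finite) →
  (∀ g ∈ N, ∀ t ∈ Pr a g, t ∈ N → t * a = a * t → t = 1) →
  ∀ x z g h : G, g ∈ N → h ∈ N → x ∈ N → x ∈ Pr a g → z ∈ N → z ∈ Pr a h →
    ∃ k ∈ N, x * z⁻¹ ∈ Pr a k

/-- **FTB** (1.2 h; FTA). The set `F = {x ∈ N | ∃ g ∈ N, x ∈ Pr a g}` is a subgroup, normal in `N`.
Proof. Subgroup: FTA (`1 ∈ Pr a 1`). `Inv a F`: `a ∈ Pr a g`. `FPF`: hypothesis. `loc`: for `f ∈ F` take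
`K = Pr a g ⊓ N`; it is finite, `Inv a`, and contained in `F`. `[a, g] ∈ F`: `a⁻¹ (g⁻¹ a g) ∈ Pr a g`, and
it is `(a⁻¹ g⁻¹ a) g ∈ N`. Normal: let `c ∈ N` commute with `a`, then `c⁻¹ (Pr a g) c = Pr a (g c)`, so
`c⁻¹ F c ≤ F`. Every `n ∈ N` is `c k` with `c ∈ N` commuting with `a` and `k ∈ F`: `[a, n] ∈ K := Pr a n ⊓ N`
(finite, `Inv`, `FPF`), so by `h_BIJ` `a⁻¹ (n⁻¹ a n) = a⁻¹ k⁻¹ a k` with `k ∈ K`, so `n⁻¹ a n = k⁻¹ a k` and
`c = n k⁻¹` commutes with `a`. So `n⁻¹ F n = k⁻¹ (c⁻¹ F c) k ≤ F`. -/
def S_FTB : Prop := ∀ (G : Type) [Group G] (a : G) (N : Subgroup G) (p : ℕ), p.Prime → p ≠ 2 →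
  a ^ p = 1 → N.Normal → (∀ g ∈ N, ((Pr a g : Subgroup G) : Set G).Finite) →
  (∀ g ∈ N, ∀ t ∈ Pr a g, t ∈ N → t * a = a * t → t = 1) →
  ∃ F : Subgroup G, F ≤ N ∧ (∀ n ∈ N, ∀ f ∈ F, n⁻¹ * f * n ∈ F) ∧ Inv a F ∧ FPF a F ∧
    (∀ f ∈ F, ∃ K : Subgroup G, K ≤ F ∧ (K : Set G).Finite ∧ Inv a K ∧ f ∈ K) ∧
    ∀ g ∈ N, a⁻¹ * (g⁻¹ * a * g) ∈ F

/-- **LFF** (part 3; proved from Thompson's theorem and the Lie ring theorem, see `Goals3.lean`).
A residually finite group which is the union of finite `a`-invariant subgroups on which `a`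
(`a^p = 1`) acts without fixed points is locally finite. -/
def S_LFF : Prop := ∀ (E : Type) [Group E] (a : E) (F : Subgroup E) (p : ℕ), p.Prime → a ^ p = 1 →
  Inv a F → FPF a F →
  (∀ f ∈ F, ∃ K : Subgroup E, K ≤ F ∧ (K : Set E).Finite ∧ Inv a K ∧ f ∈ K) →
  RFm (⊥ : Subgroup E) → IsLocFin F

/-- **FINQ** (2 h).
Proof. For `s ∈ S` let `M_s`, `F_s` be as in the hypothesis, `M = ⨅ M_s` (a finite intersection: normal, of
finite index). `F_s ⊓ M` is normalised by `M` and locally finite, so it is contained in
`L := (lfRad M).map M.subtype` (`le_lfRad` in the group `M`), which is normal in `E` (`lfRad M` is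
characteristic in `M`, `M` normal in `E`) and locally finite. For `s ∈ S`, `g ∈ M`: `[s, g] ∈ F_s`, and
`[s, g] ∈ M` (`M` normal), so `[s, g] ∈ L`: in `Ē = E ⧸ L` the images of `s` and `g` commute. The images of
the `s ∈ S` generate `Ē`, so the image `M̄` of `M` is central in `Ē`, and it has finite index. So `Ē` is
`Good` (`good_extension` with `M̄` abelian: `good_abelian`, and `Ē ⧸ M̄` finite: `good_finite`), hence `X Ē`:
the images of the `s` are pair-finite (`PairFinite.map`), so they lie in `lfRad Ē`, `lfRad Ē = ⊤`, and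
`⊤ : Subgroup Ē` is locally finite. By `IsLocFin.of_map_quotient` `⊤ : Subgroup E` is locally finite, and it
is finitely generated (`IsLocFin.finite_of_fg`). -/
def S_FINQ : Prop := ∀ (E : Type) [Group E] (S : Finset E), closure (S : Set E) = ⊤ →
  (∀ s ∈ S, PairFinite s) →
  (∀ s ∈ S, ∃ M F : Subgroup E, M.Normal ∧ M.FiniteIndex ∧ F ≤ M ∧
    (∀ m ∈ M, ∀ f ∈ F, m⁻¹ * f * m ∈ F) ∧ IsLocFin F ∧ ∀ g ∈ M, s⁻¹ * (g⁻¹ * s * g) ∈ F) →
  Finite E

/-- **MAIN** (2 h; CLM, FTB, LFF, FINQ).
Proof. Let `S` be a finite subset of `normalClosure {a}`; by `subset_closure_finset` it is contained in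
`H := closure t` with `t` a finite set of conjugates of `a`. It suffices that `H` is finite. Suppose not.
`PG H`: generators `b ∈ t`, pair-finite in `G` (`St.pair`, `St.conj`), so in `H`
(`PairFinite.subgroup`). `LG G` gives `R` normal in `H`, `Ē = H ⧸ R` infinite, `RFm R`. Let `S̄` be the image
of `t` in `Ē`: it generates `Ē`, its elements are pair-finite (`PairFinite.map`). For `b ∈ t` (as an element
of `H`; `St (b : G) p`) let `M` be as in CLM and `N = M.map (mk' R)`, normal of finite index in `Ē`, and
`b̄` the image of `b`, `b̄^p = 1`. `Pr b̄ ḡ` is the image of the finite group `Pr b g`. If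
`t̄ ∈ Pr b̄ ḡ ∩ N` commutes with `b̄`, it is the image of some `t' ∈ Pr b g =: K`, `t' ∈ M` (`R ≤ M`),
`[b, t'] ∈ R` so `t' ∈ R` by CLM, `t̄ = 1`. FTB gives `F̄ ≤ N`, and by LFF it is locally finite (`RFm ⊥`
for `Ē` follows from `RFm R`). So FINQ says that `Ē` is finite, a contradiction. -/
def S_MAIN : Prop := ∀ (G : Type) [Group G] (a : G) (p : ℕ), St a p → p ≠ 2 → LG G →
  IsLocFin (normalClosure ({a} : Set G))

/-- **COR** (0.8 h; FIT, MAIN). Proof. Otherwise `St a p`, `p = orderOf a`. By MAIN the normal subgroup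
`L = normalClosure {a}` is locally finite; it contains `a`, so it is finite (`nlf`). So `a` has finitely
many conjugates (in `L`) and `C = centralizer {a}` has finite index; FIT for `G` and `C` contradicts
`InfTor G`. -/
def S_COR : Prop := ∀ (G : Type) [Group G] (a : G), IsShunkov G → InfTor G → LG G →
  (orderOf a).Prime → orderOf a ≠ 2 → (Tor (centralizer ({a} : Set G))).Finite → InLF a

/-! ## The class `LG` -/

/-- **LGS** (0.5 h). Proof. For `L ≤ K` take `L.map f ≤ G`, isomorphic to `L`; `PG`, `Infinite` and `IQ`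
are invariant under isomorphism (prove this for `IQ`: for `e : A ≃* B` and `R ≤ B` use
`R.comap e`). -/
def S_LGS : Prop := ∀ (G K : Type) [Group G] [Group K] (f : K →* G), Function.Injective f → LG G → LG K

/-- **LGE** (1.2 h; LGS). Proof. Let `K ≤ H` be infinite with `PG K`, `f' : K → G` the restriction of `f`.
`PG f'.range` (`PairFinite.map`). If `f'.range` is infinite, it has an infinite residually finite quotient
(`LG G`), and so has `K` (take the preimage of the normal subgroup). If `f'.range` is finite then `f'.ker`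
has finite index in `K`; it embeds in `f.ker`, so by the definition of `Good` (`E = K`, `H = f'.ker`,
`ι = Unit`) `X K` holds. The generators of `K` are pair-finite, so in `lfRad K`; so `K = lfRad K` is locally
finite and finitely generated, so finite: a contradiction. -/
def S_LGE : Prop := ∀ (G H : Type) [Group G] [Group H] (f : H →* G), Good f.ker → LG G → LG H

/-- **LGF** (1.5 h). Proof. Let `K̄ ≤ G ⧸ T` be infinite, `PG K̄`, `K` the preimage of `K̄` in `G` (contains
`T`). `PG K`: lift the generators of `K̄` (a lift `s` is pair-finite: `⟨s, s^g⟩ T/T` is finite and `T` is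
finite) and add all elements of `T` (`⟨t, t^g⟩ ≤ T`). `K` is infinite. `LG G` gives `R` normal in `K` with
`K ⧸ R` infinite, `RFm R`. Let `R̄` be the image of `R` in `K̄` (`K → K̄` is onto with the finite kernel `T`).
`K̄ ⧸ R̄ = K ⧸ R T` is infinite (`R T/R` is finite). `RFm R̄`: let `x ∈ K`, `x ∉ R T`. For every `t ∈ T` one
has `x t⁻¹ ∉ R`, so there is a normal `M_t ≥ R` of finite index with `x t⁻¹ ∉ M_t`; `M = ⨅ M_t`; then
`x ∉ M T` (if `x = m t` then `x t⁻¹ ∈ M ≤ M_t`), and the image of `M` in `K̄` is the normal subgroup we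
need. -/
def S_LGF : Prop := ∀ (G : Type) [Group G] (T : Subgroup G) [T.Normal], (T : Set G).Finite →
  LG G → LG (G ⧸ T)

/-- **LGU** (0.7 h; LGS). Proof. A finitely generated subgroup `K` (`PG K`) of `G` is contained in some
`F k` (directed, finitely many generators); apply `LG (F k)` to `K` as a subgroup of `F k`. -/
def S_LGU : Prop := ∀ (G : Type) [Group G] (κ : Type) (F : κ → Subgroup G),
  Directed (· ≤ ·) F → (∀ g : G, ∃ k, g ∈ F k) → (∀ k, LG (F k)) → LG G

/-- **LGT** (0.8 h). Proof. Let `K ≤ G` with `PG K`, infinite. `K` acts on the tree, without inversions; by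
`h_TPR` (for the group `K`) the generators, so `K`, fix a vertex `v`: `K ≤ stabilizer G v`; apply
`LG (stabilizer G v)` to `K` as a subgroup of it. -/
def S_LGT : Prop := ∀ (G V : Type) [Group G] [MulAction G V] (T : SimpleGraph V), T.IsTree →
  (∀ (g : G) (v w : V), T.Adj v w → T.Adj (g • v) (g • w)) →
  (∀ (g : G) (v w : V), T.Adj v w → ¬ (g • v = w ∧ g • w = v)) →
  (∀ v : V, LG (MulAction.stabilizer G v)) → LG G

/-- **LGG** (1 h). Proof. Let `K ≤ G` be infinite with `PG K`, so `K` is finitely generated; take `R` as in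
the hypothesis. `Q = K ⧸ R` is infinite, and `PG Q` (images). For `M` normal in `K`, `R ≤ M`, `K ⧸ M` `Good`:
`X (K ⧸ M)`, the images of the generators are pair-finite, so `K ⧸ M` is locally finite and finitely
generated, so finite, and `M` has finite index. So `RFm R`. -/
def S_LGG : Prop := ∀ (G : Type) [Group G],
  (∀ K : Subgroup G, K.FG → Infinite K → ∃ (R : Subgroup K) (_ : R.Normal), Infinite (K ⧸ R) ∧
    ∀ x : K, x ∉ R → ∃ (M : Subgroup K) (_ : M.Normal), R ≤ M ∧ x ∉ M ∧ Good (K ⧸ M)) → LG G

/-- **LGR** (1 h). Locally graded groups: every finitely generated subgroup `≠ 1` has a proper subgroup of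
finite index.
Proof. Let `K` be finitely generated and infinite and let `R` be the intersection of all normal subgroups
of finite index of `K`. `RFm R` is clear (every subgroup of finite index contains a normal one of finite
index). Suppose that `K ⧸ R` is finite. Then `R` has finite index, is finitely generated and `≠ 1`, so it
has a proper subgroup `R₁` of finite index (take `R.map K.subtype` as a subgroup of `G`). `R₁` has finite
index in `K` and contains a normal subgroup of finite index (`normalCore`), so `R ≤ R₁`: a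
contradiction. -/
def S_LGR : Prop := ∀ (G : Type) [Group G],
  (∀ K : Subgroup G, K.FG → K ≠ ⊥ → ∃ L : Subgroup K, L.FiniteIndex ∧ L ≠ ⊤) →
  ∀ K : Subgroup G, K.FG → Infinite K → IQ K

/-! ## The end -/

/-- **ILF** (2.5 h; FIT, PFIN, COR, LGS, LGF). A Shunkov group in `LG` with infinitely many elements of
finite order has an infinite locally finite subgroup.
Proof. Suppose not: `¬ InLF 1`. `P M := M` is finite and `Tor (normalizer M)` is infinite; `P ⊥` holds. By
`h_MAX` (with `a = 1`) let `M` be maximal, `N = normalizer M`, `M' = M.subgroupOf N` (normal, finite),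
`Z = N ⧸ M'`. `Z` is a Shunkov group (`h_SSUB`, `h_SQUO`), `LG Z` (LGS, LGF), and `InfTor Z` (the fibres of
`N → Z` are finite and elements of finite order are mapped to such). (1) `Tor (centralizer {z})` is finite
for every `z ∈ Z` of prime order: let `M₁ ≤ G` be the preimage of `⟨z⟩` (finite, contains `M` properly). If
`t ∈ N` has an image commuting with `z`, it normalises `M₁`. If `Tor (centralizer {z})` was infinite, the
lifts (of finite order, `M` is finite) of its elements would be infinitely many elements of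
`Tor (normalizer M₁)`, so `P M₁`, a contradiction. (2) No `z ∈ Z` satisfies `InLF z`, and `¬ InLF 1` in `Z`:
if `L̄ ≤ Z` is infinite locally finite, its preimage in `N` is locally finite
(`IsLocFin.of_map_quotient`) and infinite, and its image in `G` shows `InLF 1`. (3) By COR and (1), (2)
there is no `z ∈ Z` of odd prime order. There is some `z` of prime order (`InfTor Z`, take a power of an
element `≠ 1` of finite order), so of order `2`. Every finite subgroup of `Z` is a `2`-group (Cauchy), `St z
2` holds, and PFIN with `B = ⊤` gives a finite `D` containing all finite subgroups which contain `z`, so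
`z^g ∈ Pr z g ≤ D` for all `g`: `z` has finitely many conjugates, `centralizer {z}` has finite index, and FIT
contradicts `InfTor Z`. -/
def S_ILF : Prop := ∀ (G : Type) [Group G], IsShunkov G → InfTor G → LG G → InLF (1 : G)

/-- **END** (1 h; COR, ILF, LGS). Proof. If `Tor (centralizer {a})` is finite use COR. Otherwise
`C = centralizer {a}` is a Shunkov group (`h_SSUB`), `LG C`, `InfTor C`, so by ILF it has an infinite locally
finite subgroup `L`; its image `L'` in `G` is `Inv a` and `L' ⊔ ⟨a⟩` is locally finite (`h_LFA`). -/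
def S_END : Prop := ∀ (G : Type) [Group G], IsShunkov G → InfTor G → LG G → ∀ a : G,
  (orderOf a).Prime → orderOf a ≠ 2 → InLF a

end Pool.Agent.Helper52.SG
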