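import Pool.Agent.Helper52.SG.Defs3
import Pool.Agent.Helper52.SG.Goals
import Pool.Agent.Helper52.SG.Goals2

/-!
# Project SG, part 3: Lie rings with a fixed point free automorphism of prime order (Higman,
Kreknin), the associated Lie ring of a group, and the proof of `S_LFF`

`br A B`: additive subgroup generated by the brackets.  `AI J n = [J, N, .., N]`, `LI I n`: lower
central series of `I` (`LI ⊤ n` is the lower central series of `N`).  `GrF W`: `W : ZMod p → AddSubgroup N`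
with `W 0 = ⊥`, `[W i, W j] ≤ W (i + j)` (the sum of the `W i` need not be direct or all of `N`).  `DW W`:
derived family.  Definitions: `Pool/Agent/Helper52/SG/Defs3.lean`.
-/

set_option autoImplicit false

namespace Pool.Agent.Helper52.SG

open Subgroup Pool.H83Shunkov Pool.Agent.Helper29.SH
open scoped commutatorElement

/-! ## Kreknin's theorem -/

/-- **KREK** (2.5 h). The family `W` is solvable: `(DW)^[s] W = 0`, `s = 2^(p-1) - 1`.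
Proof. For a family `W` and `k : ℕ` let `S k W` be the smallest family with `W w ≤ S k W w` for
`w.val > k` and `⁅x, y⁆ ∈ S k W (c + w)` for `x ∈ S k W c`, `y ∈ W w`, `w.val > k` (sums of left-normed
brackets of elements of the `W w`, `w.val > k`; define it inductively as a predicate closed under `0`,
`+`, `-`). (a) `⁅x, y⁆ ∈ S k W (c + c')` for `x ∈ S k W c`, `y ∈ S k W c'`: induction on `y` (for all `x`), for
`y = ⁅y', y''⁆` use `⁅x, ⁅y', y''⁆⁆ = ⁅⁅x, y'⁆, y''⁆ - ⁅⁅x, y''⁆, y'⁆`. (c) If `u ∈ W a` and `v ∈ S (k-1) W b` (so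
`v` is a sum of left-normed brackets of elements of `W w`, `w.val ≥ k`) then `⁅u, v⁆` is a sum of elements
`⁅x, y⁆` with `x ∈ W c`, `y ∈ W w`, `w.val ≥ k`, `c + w = a + b`: induction on `v` (for all `a`, `u`) with the
same identity.
Claim `C(k)`, `0 ≤ k ≤ p - 1`: for all `W` with `GrF W` and all `c`: `(DW^[2^k - 1] W) c ≤ S k W c`. `C(0)`:
`W c ≤ S 0 W c` (`W 0 = ⊥`). `C(k-1) ⇒ C(k)` for `1 ≤ k ≤ p - 1`: let `H = DW^[2^(k-1) - 1] W`, so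
`H c ≤ S (k-1) W c` and `H c ≤ W c`; `H' = DW H`, `GrF H'`, and `C(k-1)` for `H'` says that
`DW^[2^k - 1] W c = DW^[2^(k-1) - 1] H' c ≤ S (k-1) H' c`. By (a) it is enough that `H' w ≤ S k W w` for all `w`
with `w.val ≥ k`. `w.val > k`: `H' w ≤ W w`. `w.val = k`: `H' w` is generated by the `⁅u, v⁆`, `u ∈ H a`,
`v ∈ H b`, `a + b = w`. If `a = w` or `b = w` then `b = 0` or `a = 0` and `⁅u, v⁆ = 0`. If `a.val > k` and
`b.val > k` it is clear. Otherwise `a.val < k` and `b.val = k - a.val < k`, or conversely (if `b.val < k` then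
`a.val = k - b.val`); `v ∈ H b ≤ S (k-1) W b`, and by (c) `⁅u, v⁆` is a sum of `⁅x, y⁆` with
`x ∈ W (w - w')`, `y ∈ W w'`, `w'.val ≥ k`. If `w' = w` then `x ∈ W 0 = ⊥`. Otherwise `w'.val > k` and
`(w - w').val = k - w'.val + p > k`, so `⁅x, y⁆ ∈ S k W w` by (a).
Finally `S (p-1) W c = ⊥` because `w.val ≤ p - 1` for all `w`; so `C(p-1)` is the statement. -/
def S_KREK : Prop := ∀ (p : ℕ) [Fact p.Prime] (N : Type) [LieRing N] (W : ZMod p → AddSubgroup N),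
  GrF W → ∃ s : ℕ, ∀ c, (DW^[s] W) c = ⊥

/-- **MET** (2 h). Metabelian case: `[I, N, .., N] ≤ [I, I]` (`p - 1` times `N`), `I = [N, N]`.
Proof. `I = br ⊤ ⊤`, `I₂ = br I I`. `I` is an ideal, so `I₂` is an ideal (`⁅⁅x, y⁆, z⁆ = ⁅⁅x, z⁆, y⁆ + ⁅x, ⁅y, z⁆⁆`).
Since `⊤ = ⨆ W i`, `AI I (p-1)` is generated by the elements `[x, y_1, .., y_{p-1}]` (left-normed), `x = ⁅u, v⁆`,
`u ∈ W i`, `v ∈ W j`, `y_l ∈ W (b_l)`; if some `b_l = 0` then `y_l = 0`. Let all `b_l ≠ 0`, `d = i + j`. For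
`z ∈ I`: `⁅⁅z, y⁆, y'⁆ - ⁅⁅z, y'⁆, y⁆ = ⁅z, ⁅y, y'⁆⁆ ∈ I₂`, so modulo the ideal `I₂` the `y_l` can be permuted. By
Cauchy-Davenport (`ZMod.cauchy_davenport`, by induction the set of the subset sums of `n` nonzero elements has
at least `min p (n+1)` elements) there is `T ⊆ {1, .., p-1}` with `d + ∑_{l ∈ T} b_l = 0`. Put the `y_l`, `l ∈ T`,
first: the partial bracket lies in `W 0 = ⊥`. So the element lies in `I₂`. -/
def S_MET : Prop := ∀ (p : ℕ) [Fact p.Prime] (N : Type) [LieRing N] (W : ZMod p → AddSubgroup N),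
  GrF W → (⨆ i, W i) = ⊤ →
  AI (br ⊤ ⊤ : AddSubgroup N) (p - 1) ≤ br (br ⊤ ⊤) (br ⊤ ⊤)

/-- **HALL** (2 h). P. Hall's nilpotency criterion for Lie rings.
Proof. `I = br ⊤ ⊤`. Call `J` an ideal if `br J ⊤ ≤ J`. `I`, all `LI I k`, and `br J J'` for ideals `J`, `J'` are
ideals. (1) Jacobi: `br (br A B) ⊤ ≤ br (br A ⊤) B ⊔ br A (br B ⊤)`, so for ideals `A`, `B`:
`AI (br A B) n ≤ ⨆_{i+j=n} br (AI A i) (AI B j)`. (2) For every `k` there is `m_k` with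
`AI (LI I k) m_k ≤ LI I (k+1)`. `k = 0`: `m_0 = m` (`LI I 0 = I`, `LI I 1 = br I I`). `k → k+1`:
`LI I (k+1) = br (LI I k) I`, `m_{k+1} = m_k + m`; in (1) `i ≥ m_k` or `j ≥ m`. If `i ≥ m_k`:
`AI (LI I k) i ≤ LI I (k+1)` (ideal) and `AI I j ≤ I`, so the bracket is in `br (LI I (k+1)) I = LI I (k+2)`. If
`j ≥ m`: `AI I j ≤ br I I`, `AI (LI I k) i ≤ LI I k`, and `br (LI I k) (br I I) ≤ LI I (k+2)` (Jacobi:
`⁅x, ⁅y, z⁆⁆ = ⁅⁅x, y⁆, z⁆ - ⁅⁅x, z⁆, y⁆`). (3) So `AI I (m_0 + .. + m_{d-1}) ≤ LI I d = ⊥`, and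
`LI ⊤ (n+1) = AI I n`. -/
def S_HALL : Prop := ∀ (N : Type) [LieRing N] (m d : ℕ),
  AI (br ⊤ ⊤ : AddSubgroup N) m ≤ br (br ⊤ ⊤) (br ⊤ ⊤) → LI (br ⊤ ⊤ : AddSubgroup N) d = ⊥ →
  ∃ n : ℕ, LI (⊤ : AddSubgroup N) n = ⊥

/-- **KH** (1.5 h; KREK, MET, HALL). A Lie ring with a `ℤ/p`-grading with `W 0 = 0` is nilpotent.
Proof. By KREK `(DW^[s] W) = ⊥` for some `s`. Induction on `s` for all `N`, `W` with `⨆ W i = ⊤`. `s = 0`: `W = ⊥`,
so `⊤ = ⊥`. `s + 1`: let `I = br ⊤ ⊤`; `I = ⨆ c, DW W c` (as `⊤ = ⨆ W i`). Let `N'` be the Lie ring `I` (a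
`LieSubalgebra ℤ N`) and `W' c` the preimage of `DW W c` in `N'`. `GrF W'`, `⨆ W' c = ⊤`, and `DW^[s] W' = ⊥` (its
image is `DW^[s] (DW W) = DW^[s+1] W`). By induction `LI ⊤ d = ⊥` in `N'`, i.e. `LI I d = ⊥` in `N`. MET and
HALL. -/
def S_KH : Prop := ∀ (p : ℕ) [Fact p.Prime] (N : Type) [LieRing N] (W : ZMod p → AddSubgroup N),
  GrF W → (⨆ i, W i) = ⊤ → ∃ n : ℕ, LI (⊤ : AddSubgroup N) n = ⊥

/-- **BAS** (3 h; KH). Higman's theorem for Lie rings: `ψ` is an automorphism with `1 + ψ + .. + ψ^(p-1) = 0`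
and `L` has no `p`-torsion; then `L` is nilpotent.
Proof. `L̂ = (ZMod p → L)` with the pointwise addition and `⁅f, g⁆ k = ∑ i, ⁅f i, g (k - i)⁆` is a Lie ring
(`L ⊗ ℤ[x]/(x^p - 1)`; check `lie_self`, additivity, Jacobi by reindexing finite sums over `ZMod p`; or use
`LieAlgebra.ExtendScalars` with a group ring). Let `σ f k = f (k - 1)` (multiplication by `x`; `⁅σ f, g⁆ = σ ⁅f, g⁆
= ⁅f, σ g⁆`) and `Ψ f k = ψ (f k)` (a Lie automorphism commuting with `σ`). `W i = {f | Ψ f = σ^i f}`, i.e.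
`∀ k, ψ (f k) = f (k - i)`. `[W i, W j] ≤ W (i + j)`. `W 0 = ⊥`: `ψ (f k) = f k` for all `k`, so
`p • f k = ∑_j ψ^j (f k) = 0`. Let `N = ⨆ W i`, a Lie subring of `L̂`; KH for the Lie ring `N` (with the preimages of
the `W i`): `LI ⊤ n = ⊥` in `N`. For `l ∈ L` let `e l ∈ L̂`, `e l k = (if k = 0 then p • l else 0) - l`
(`l ⊗ (p - Φ)`, `Φ = ∑ x^k`). `e l ∈ N`: let `v_i k = ∑_{j < p, -i j = k} ψ^j l`; `v_i ∈ W i`, and
`(∑_i v_i) k = ∑_j #{i | -i j = k} ψ^j l = (if k = 0 then p • l else 0) + ∑_{0<j<p} ψ^j l = e l k` (for `j = 0`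
all `i` count if `k = 0` and none otherwise; for `j ≠ 0` exactly one `i`; `∑_{0<j<p} ψ^j l = -l`).
`⁅e l, e l'⁆ = p • e ⁅l, l'⁆` (`Φ² = p Φ`, so `(p - Φ)² = p (p - Φ)`; or evaluate). So for left-normed brackets
`[e l_0, .., e l_n] = p^n • e [l_0, .., l_n]`, it is `0` as `LI ⊤ n = ⊥` in `N`; at `k = 1 ≠ 0` it is
`- p^n • [l_0, .., l_n]`, so `[l_0, .., l_n] = 0`: `LI ⊤ n = ⊥` in `L` (it is generated by these brackets). -/
def S_BAS : Prop := ∀ (p : ℕ) [Fact p.Prime] (L : Type) [LieRing L] (ψ : L →+ L),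
  (∀ x y : L, ψ ⁅x, y⁆ = ⁅ψ x, ψ y⁆) → (∀ x : L, ψ^[p] x = x) →
  (∀ x : L, ∑ j ∈ Finset.range p, ψ^[j] x = 0) → (∀ x : L, p • x = 0 → x = 0) →
  ∃ n : ℕ, LI (⊤ : AddSubgroup L) n = ⊥

/-! ## The associated Lie ring -/

/-- **LIEA** (2 h). Commutator calculus, `⁅x, y⁆ = x y x⁻¹ y⁻¹`, `Γ_n = Gm B n`.
Proof. (1) `⁅Γ_m, Γ_n⁆ ≤ Γ_{m+n+1}`: induction on `n` (for all `m`) with the three subgroups lemma
(`Subgroup.commutator_commutator_eq_bot_of_rotate` in `B ⧸ Γ_{m+n+2}`, or the normal subgroup version):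
`⁅Γ_m, Γ_{n+1}⁆ = ⁅Γ_m, ⁅Γ_n, B⁆⁆ ≤ ⁅⁅Γ_m, Γ_n⁆, B⁆ ⊔ ⁅⁅Γ_m, B⁆, Γ_n⁆`. (2) `⁅x x', y⁆ = x ⁅x', y⁆ x⁻¹ ⁅x, y⁆`, and modulo
`Γ_{m+n+2}` conjugation acts trivially on `Γ_{m+n+1}` and the group `Γ_{m+n+1}/Γ_{m+n+2}` is abelian. (3) similarly
`⁅x, y y'⁆ = ⁅x, y⁆ y ⁅x, y'⁆ y⁻¹`. (4) Hall-Witt identity
`(y ⁅⁅y⁻¹, x⁆, z⁆ y⁻¹) (z ⁅⁅z⁻¹, y⁆, x⁆ z⁻¹) (x ⁅⁅x⁻¹, z⁆, y⁆ x⁻¹) = 1` (some such form, by `group`), where modulo
`Γ_{l+m+n+3}` one has `⁅⁅y⁻¹, x⁆, z⁆ ≡ ⁅⁅x, y⁆, z⁆` (`⁅y⁻¹, x⁆ ≡ ⁅y, x⁆⁻¹ = ⁅x, y⁆` modulo `Γ_{l+m+2}` by (2) and then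
(2) again) etc., and conjugation acts trivially. -/
def S_LIEA : Prop := ∀ (B : Type) [Group B],
  (∀ m n x y, x ∈ Gm B m → y ∈ Gm B n → ⁅x, y⁆ ∈ Gm B (m + n + 1)) ∧
  (∀ m n x x' y, x ∈ Gm B m → x' ∈ Gm B m → y ∈ Gm B n →
    (⁅x, y⁆ * ⁅x', y⁆)⁻¹ * ⁅x * x', y⁆ ∈ Gm B (m + n + 2)) ∧
  (∀ m n x y y', x ∈ Gm B m → y ∈ Gm B n → y' ∈ Gm B n →
    (⁅x, y⁆ * ⁅x, y'⁆)⁻¹ * ⁅x, y * y'⁆ ∈ Gm B (m + n + 2)) ∧
  (∀ l m n x y z, x ∈ Gm B l → y ∈ Gm B m → z ∈ Gm B n →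
    ⁅⁅x, y⁆, z⁆ * ⁅⁅y, z⁆, x⁆ * ⁅⁅z, x⁆, y⁆ ∈ Gm B (l + m + n + 3))

/-- **LIEB** (3 h; LIEA). The associated Lie ring exists.
Proof. `M n = Additive (Γ_n ⧸ (Γ_{n+1}).subgroupOf Γ_n)`, an abelian group, `L = ⨁ n, M n` (`DirectSum`).
`c n x = of n ⟦x⟧` for `x ∈ Γ_n` (`0` otherwise). The bracket `M m → M n → M (m+n+1)`, `⟦x⟧, ⟦y⟧ ↦ ⟦⁅x, y⁆⟧`, is
well defined and biadditive by LIEA (2), (3) (if `x ∈ Γ_{m+1}` then `⁅x, y⁆ ∈ Γ_{m+n+2}` by (1)); extend it to `L`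
biadditively (`DirectSum.toAddMonoid`). `lie_self`: `⁅⟦x⟧, ⟦x⟧⁆ = 0`, `⁅⟦x⟧, ⟦y⟧⁆ = -⁅⟦y⟧, ⟦x⟧⁆` in degree `m+n+1 = n+m+1`
(work with the elements `c (m+n+1) ⁅x, y⁆` of `L`, so that no casts are needed; `c` respects equality of the
index), so `⁅u, u⁆ = 0` by induction on the support. Jacobi (`leibniz_lie`) from (4) on homogeneous elements:
`c (l+m+n+2)` of the three terms. The properties `mul`, `zero`, `lie`, `span` are clear; `lift`: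
`DirectSum.toAddMonoid` of the maps `M n →+ A` induced by `f n`. -/
def S_LIEB : Prop := ∀ (B : Type) [Group B], ∃ (L : Type) (_ : LieRing L), Nonempty (LieOf B L)

/-- **HIG** (2 h; BAS, LIEB). A torsion group with a splitting automorphism of prime order `p` and without
elements of order `p`: the lower central series becomes stationary.
Proof. Let `L`, `c` be as in LIEB. `α` maps `Γ_n` onto `Γ_n`. By `lift` there is `ψ : L →+ L` with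
`ψ (c n x) = c n (α x)` for `x ∈ Γ_n`; it respects brackets (check on the generators `c n x`: `lie`,
biadditivity), `ψ^[p] = id`, and `∑_{j<p} ψ^[j] (c n x) = c n (∏_{j<p} α^j x) = c n 1 = 0`. No `p`-torsion: every
element `l` of `L` satisfies `m • l = 0` for some `m` prime to `p` (true for `c n x`, `m = orderOf x`, and for sums:
products of the `m`'s); if also `p • l = 0` then `l = 0`. BAS: `LI ⊤ n = ⊥` in `L`. For `x ∈ Γ_n`: `c n x ∈ LI ⊤ n`,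
by induction on `n`: `Γ_{n+1}` is generated by the `⁅x, g⁆`, `x ∈ Γ_n`, and `c (n+1) ⁅x, g⁆ = ⁅c n x, c 0 g⁆ ∈
br (LI ⊤ n) ⊤` (`mul` for products and inverses). So `c n x = 0`, `x ∈ Γ_{n+1}`. -/
def S_HIG : Prop := ∀ (B : Type) [Group B] (α : MulAut B) (p : ℕ), p.Prime → α ^ p = 1 →
  (∀ x : B, ((List.range p).map fun j => (α ^ j) x).prod = 1) →
  (∀ x : B, IsOfFinOrder x ∧ ¬ p ∣ orderOf x) → ∃ n : ℕ, Gm B n ≤ Gm B (n + 1)

/-! ## Proof of `S_LFF` -/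

/-- **FGT** (0.8 h). Nilpotent torsion groups are locally finite.
Proof. Induction on the nilpotency class (`Group.nilpotent_center_quotient_ind` or so): the center is an abelian
torsion group, so locally finite (a finitely generated one is finite), `B ⧸ center B` is locally finite by
induction, and `IsLocFin.of_map_quotient`. -/
def S_FGT : Prop := ∀ (B : Type) [Group B], Group.IsNilpotent B → (∀ x : B, IsOfFinOrder x) →
  IsLocFin (⊤ : Subgroup B)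

/-- **LFFP** (2 h; FPN, HIG, FGT). The proof of `S_LFF`.
Proof. Let `S` be a finite subset of `F` and `B = closure (⋃_{j<p} a^{-j} S a^j) ≤ F`; it is finitely generated and
`Inv a` (`a^p = 1`), and so `a B a⁻¹ = B`. It suffices that `B` is finite. Let `α` be the automorphism
`x ↦ a⁻¹ x a` of the group `B`, `α^p = 1`. Let `x ∈ B`, `K ∋ x` as in the hypothesis. `K` is finite, `Inv a`,
`FPF a K`: its order is prime to `p` (`h_CARD`), so `x` has finite order prime to `p`. By `h_BIJ` for `x⁻¹`: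
`x⁻¹ = a⁻¹ k⁻¹ a k`, so `x = k⁻¹ α(k)` with `α k = a⁻¹ k a`, and `∏_{j<p} α^j x = k⁻¹ (a^{-p} k a^p) = 1`
(telescoping, in `E`). HIG: `Gm B n ≤ Gm B (n+1)` for some `n`. Let `x ∈ Gm B n`, `x ≠ 1`. By `RFm ⊥` there is a
normal subgroup `M` of `E` of finite index with `x ∉ M`. The image `B̄` of `B` in `E ⧸ M` is finite, `Inv`, and
`FPF ā B̄` by `h_LIFT` (with `F` in the place of `F`: `f ∈ F`, `a⁻¹ f a f⁻¹ ∈ M` implies `f ∈ M`). By FPN it is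
nilpotent. The image of `Gm B n` is `Gm B̄ n ≤ Gm B̄ (n+1)`, so `Gm B̄ n = Gm B̄ m` for all `m ≥ n`, hence
`Gm B̄ n = ⊥` and `x ∈ M`, a contradiction. So `Gm B n = ⊥`, `B` is nilpotent, `⊤` is locally finite (FGT) and
finitely generated, so `B` is finite. -/
def S_LFFP : Prop := S_LFF

end Pool.Agent.Helper52.SG
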